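import Pool.Agent.TH856.GR.Count

set_option autoImplicit false

/-!
# From forms to systems, and rational points of the projective line
-/

namespace Pool.Agent.TH856.GR

open Finset Function MvPolynomial

/-- rational points of the projective line -/
abbrev PQ := Projectivization ℚ (Fin 2 → ℚ)

/-- the rational vector of an integral vector -/
def qv (v : ℤ × ℤ) : Fin 2 → ℚ := ![(v.1 : ℚ), (v.2 : ℚ)]

lemma qv_ne_zero {v : ℤ × ℤ} (h : IsCoprime v.1 v.2) : qv v ≠ 0 := by
  intro h0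
  have h1 : (v.1 : ℚ) = 0 := congrFun h0 0
  have h2 : (v.2 : ℚ) = 0 := congrFun h0 1
  have h1' : v.1 = 0 := by exact_mod_cast h1
  have h2' : v.2 = 0 := by exact_mod_cast h2
  rw [h1', h2'] at h
  exact not_isCoprime_zero_zero h

/-- every nonzero rational vector is a multiple of a primitive integral one -/
lemma exists_prim (w : Fin 2 → ℚ) (hw : w ≠ 0) :
    ∃ (v : ℤ × ℤ) (c : ℚ), IsCoprime v.1 v.2 ∧ c ≠ 0 ∧ w = c • qv v := by
  -- clear denominators
  set a : ℤ := (w 0).num * (w 1).den with ha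
  set b : ℤ := (w 1).num * (w 0).den with hb
  have h0 : (w 0) = (a : ℚ) / ((w 0).den * (w 1).den) := by
    rw [ha]
    have h1 : ((w 0).den : ℚ) ≠ 0 := by exact_mod_cast (w 0).den_nz
    have h2 : ((w 1).den : ℚ) ≠ 0 := by exact_mod_cast (w 1).den_nz
    have h3 := Rat.num_div_den (w 0)
    push_cast
    rw [mul_div_mul_right _ _ h2, h3]
  have h1 : (w 1) = (b : ℚ) / ((w 0).den * (w 1).den) := by
    rw [hb]
    have h1 : ((w 0).den : ℚ) ≠ 0 := by exact_mod_cast (w 0).den_nz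
    have h2 : ((w 1).den : ℚ) ≠ 0 := by exact_mod_cast (w 1).den_nz
    have h3 := Rat.num_div_den (w 1)
    push_cast
    rw [mul_comm ((w 0).den : ℚ), mul_div_mul_right _ _ h1, h3]
  have hden : ((w 0).den : ℚ) * (w 1).den ≠ 0 := by
    have h1 : ((w 0).den : ℚ) ≠ 0 := by exact_mod_cast (w 0).den_nz
    have h2 : ((w 1).den : ℚ) ≠ 0 := by exact_mod_cast (w 1).den_nz
    exact mul_ne_zero h1 h2
  have hab : ¬ (a = 0 ∧ b = 0) := by
    rintro ⟨e1, e2⟩
    apply hw
    ext i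
    fin_cases i
    · change w 0 = 0
      rw [h0, e1]; simp
    · change w 1 = 0
      rw [h1, e2]; simp
  have hg : (Int.gcd a b) ≠ 0 := by
    rw [Ne, Int.gcd_eq_zero_iff]; exact hab
  obtain ⟨g, a', b', hg0, hco, ha', hb'⟩ := Int.exists_gcd_one' (Nat.pos_of_ne_zero hg)
  refine ⟨(a', b'), (g : ℚ) / ((w 0).den * (w 1).den), Int.isCoprime_iff_gcd_eq_one.2 hco, ?_, ?_⟩
  · apply div_ne_zero _ hden
    exact_mod_cast hg0.ne'
  · ext i
    fin_cases i
    · change w 0 = _ * (a' : ℚ)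
      refine h0.trans ?_
      rw [ha']; push_cast; ring
    · change w 1 = _ * (b' : ℚ)
      refine h1.trans ?_
      rw [hb']; push_cast; ring

lemma exists_rep (P : PQ) : ∃ v : ℤ × ℤ, IsCoprime v.1 v.2 ∧
    ∀ hv : qv v ≠ 0, Projectivization.mk ℚ (qv v) hv = P := by
  obtain ⟨v, c, hv, hc, h⟩ := exists_prim P.rep P.rep_nonzero
  refine ⟨v, hv, fun hv0 => ?_⟩
  rw [← P.mk_rep, Projectivization.mk_eq_mk_iff']
  refine ⟨c⁻¹, ?_⟩
  rw [h, smul_smul, inv_mul_cancel₀ hc, one_smul]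

/-- a primitive integral vector of a point -/
noncomputable def rp (P : PQ) : ℤ × ℤ := (exists_rep P).choose

lemma rp_cop (P : PQ) : IsCoprime (rp P).1 (rp P).2 := (exists_rep P).choose_spec.1

lemma rp_mk (P : PQ) : Projectivization.mk ℚ (qv (rp P)) (qv_ne_zero (rp_cop P)) = P :=
  (exists_rep P).choose_spec.2 _

lemma mk_eq_of_pm {u v : ℤ × ℤ} (hu : qv u ≠ 0) (hv : qv v ≠ 0) (h : u = v ∨ u = -v) :
    Projectivization.mk ℚ (qv u) hu = Projectivization.mk ℚ (qv v) hv := by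
  rcases h with rfl | rfl
  · rfl
  · rw [Projectivization.mk_eq_mk_iff']
    refine ⟨-1, ?_⟩
    ext i
    fin_cases i <;> simp [qv]

lemma dt_eq_zero_of_mk {u v : ℤ × ℤ} (hu : qv u ≠ 0) (hv : qv v ≠ 0)
    (h : Projectivization.mk ℚ (qv u) hu = Projectivization.mk ℚ (qv v) hv) : dt u v = 0 := by
  rw [Projectivization.mk_eq_mk_iff'] at h
  obtain ⟨a, ha⟩ := h
  have h1 : a * (v.1 : ℚ) = u.1 := congrFun ha 0
  have h2 : a * (v.2 : ℚ) = u.2 := congrFun ha 1
  have h3 : ((u.1 * v.2 - u.2 * v.1 : ℤ) : ℚ) = 0 := by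
    push_cast; rw [← h1, ← h2]; ring
  unfold dt
  exact_mod_cast h3

lemma rp_dt_ne {P Q : PQ} (h : P ≠ Q) : dt (rp P) (rp Q) ≠ 0 := by
  intro h0
  apply h
  rw [← rp_mk P, ← rp_mk Q]
  exact mk_eq_of_pm _ _ (eq_or_neg_of_dt (rp_cop P) (rp_cop Q) h0)

section maps
variable {d : ℕ} {F G : MvPolynomial (Fin 2) ℤ}

/-- the image vector -/
noncomputable def im (F G : MvPolynomial (Fin 2) ℤ) (v : ℤ × ℤ) : ℤ × ℤ := (ev F v, ev G v)

/-- the self-map of the projective line -/
noncomputable def phi (hc : CoprimePreserving F G) (P : PQ) : PQ :=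
  Projectivization.mk ℚ (qv (im F G (rp P))) (qv_ne_zero (hc _ _ (rp_cop P)))

lemma rp_phi (hc : CoprimePreserving F G) (P : PQ) :
    rp (phi hc P) = im F G (rp P) ∨ rp (phi hc P) = - im F G (rp P) := by
  apply eq_or_neg_of_dt (rp_cop _) (hc _ _ (rp_cop P))
  exact dt_eq_zero_of_mk (qv_ne_zero (rp_cop _)) _ (rp_mk (phi hc P))

/-- the self-map of `ℚ²` given by the two forms -/
noncomputable def Phi (F G : MvPolynomial (Fin 2) ℤ) (w : Fin 2 → ℚ) : Fin 2 → ℚ :=
  ![MvPolynomial.aeval w F, MvPolynomial.aeval w G]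

lemma aeval_qv (F : MvPolynomial (Fin 2) ℤ) (v : ℤ × ℤ) :
    MvPolynomial.aeval (qv v) F = ((ev F v : ℤ) : ℚ) := by
  unfold ev qv
  rw [MvPolynomial.aeval_def, MvPolynomial.eval₂_eq', MvPolynomial.eval_eq']
  push_cast
  simp [Fin.prod_univ_two]

lemma aeval_smul {F : MvPolynomial (Fin 2) ℤ} (hF : F.IsHomogeneous d) (c : ℚ) (w : Fin 2 → ℚ) :
    MvPolynomial.aeval (c • w) F = c ^ d * MvPolynomial.aeval w F := by
  rw [MvPolynomial.aeval_def, MvPolynomial.aeval_def, MvPolynomial.eval₂_eq',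
    MvPolynomial.eval₂_eq', Finset.mul_sum]
  apply Finset.sum_congr rfl
  intro m hm
  have hd' : m 0 + m 1 = d := by
    by_contra hne
    have := hF.coeff_eq_zero (d := m) (by
      rw [Finsupp.degree_eq_sum]; simpa using hne)
    exact (MvPolynomial.mem_support_iff.1 hm) this
  simp only [Fin.prod_univ_two, Pi.smul_apply, smul_eq_mul, mul_pow, ← hd', pow_add]
  ring

lemma Phi_smul (hF : F.IsHomogeneous d) (hG : G.IsHomogeneous d) (c : ℚ) (w : Fin 2 → ℚ) :
    Phi F G (c • w) = c ^ d • Phi F G w := by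
  unfold Phi
  rw [aeval_smul hF, aeval_smul hG]
  ext i
  fin_cases i <;> simp

lemma Phi_qv (v : ℤ × ℤ) : Phi F G (qv v) = qv (im F G v) := by
  unfold Phi im
  rw [aeval_qv, aeval_qv]
  rfl

/-- `Phi` on vectors induces `phi` on points -/
lemma phi_mk (hF : F.IsHomogeneous d) (hG : G.IsHomogeneous d) (hc : CoprimePreserving F G)
    (w : Fin 2 → ℚ) (hw : w ≠ 0) : ∃ h : Phi F G w ≠ 0,
      Projectivization.mk ℚ (Phi F G w) h = phi hc (Projectivization.mk ℚ w hw) := by
  set P := Projectivization.mk ℚ w hw with hP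
  have h1 : Projectivization.mk ℚ (qv (rp P)) (qv_ne_zero (rp_cop P)) =
    Projectivization.mk ℚ w hw := rp_mk P
  rw [Projectivization.mk_eq_mk_iff'] at h1
  obtain ⟨a, ha⟩ := h1
  have ha0 : a ≠ 0 := by
    rintro rfl
    rw [zero_smul] at ha
    exact qv_ne_zero (rp_cop P) ha.symm
  have h2 : qv (im F G (rp P)) = a ^ d • Phi F G w := by
    rw [← Phi_qv, ← ha, Phi_smul hF hG]
  have h3 : qv (im F G (rp P)) ≠ 0 := qv_ne_zero (hc _ _ (rp_cop P))
  have h4 : Phi F G w ≠ 0 := by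
    intro h
    rw [h, smul_zero] at h2
    exact h3 h2
  refine ⟨h4, ?_⟩
  unfold phi
  rw [Projectivization.mk_eq_mk_iff']
  refine ⟨(a ^ d)⁻¹, ?_⟩
  rw [h2, smul_smul, inv_mul_cancel₀ (pow_ne_zero _ ha0), one_smul]

lemma phi_iter (hF : F.IsHomogeneous d) (hG : G.IsHomogeneous d) (hc : CoprimePreserving F G)
    (w : Fin 2 → ℚ) (hw : w ≠ 0) (n : ℕ) : ∃ h : (Phi F G)^[n] w ≠ 0,
      Projectivization.mk ℚ ((Phi F G)^[n] w) h = (phi hc)^[n] (Projectivization.mk ℚ w hw) := by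
  induction n with
  | zero => exact ⟨hw, rfl⟩
  | succ n ih =>
    obtain ⟨h1, h2⟩ := ih
    obtain ⟨h3, h4⟩ := phi_mk hF hG hc _ h1
    have e : (Phi F G)^[n + 1] w = Phi F G ((Phi F G)^[n] w) :=
      Function.iterate_succ_apply' _ _ _
    refine ⟨by rw [e]; exact h3, ?_⟩
    rw [Function.iterate_succ_apply' (phi hc), ← h2, ← h4]
    simp only [e]

lemma exists_idem {ι : Type} [Finite ι] (f : ι → ι) :
    ∃ N, 0 < N ∧ ∀ x, f^[N] (f^[N] x) = f^[N] x := by
  classical
  obtain ⟨a, b, hab, h⟩ := Finite.exists_ne_map_eq_of_infinite (fun n : ℕ => (f^[n] : ι → ι))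
  wlog hlt : a < b generalizing a b
  · exact this b a hab.symm h.symm (lt_of_le_of_ne (not_lt.1 hlt) hab.symm)
  obtain ⟨p, hp, rfl⟩ : ∃ p, 0 < p ∧ b = a + p := ⟨b - a, by omega, by omega⟩
  have key : ∀ k n, a ≤ n → ∀ x, f^[n + p * k] x = f^[n] x := by
    intro k
    induction k with
    | zero => intro n _ x; rfl
    | succ k ih =>
      intro n hn x
      obtain ⟨t, rfl⟩ := Nat.exists_eq_add_of_le hn
      have : a + t + p * (k + 1) = (t + p * k) + (a + p) := by ring
      rw [this, Function.iterate_add_apply, ← h, ← Function.iterate_add_apply]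
      have : t + p * k + a = a + t + p * k := by ring
      rw [this]
      exact ih _ hn x
  refine ⟨p * (a + 1), by positivity, fun x => ?_⟩
  rw [← Function.iterate_add_apply]
  apply key
  nlinarith

lemma dt_pm {a a' b : ℤ × ℤ} (h : a = a' ∨ a = -a') :
    dt a b = dt a' b ∨ dt a b = - dt a' b := by
  rcases h with rfl | rfl
  · left; rfl
  · right; unfold dt; simp; ring

lemma ev_fibre (q v : ℤ × ℤ) : ev (C q.2 * F - C q.1 * G) v = dt (im F G v) q := by
  simp only [ev_sub, ev_mul, ev_C, dt, im]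
  ring

lemma ev_moebius (α β γ δ : ℤ) (v : ℤ × ℤ) :
    ev (F * (C γ * X 0 + C δ * X 1) - G * (C α * X 0 + C β * X 1)) v =
      dt (im F G v) (α * v.1 + β * v.2, γ * v.1 + δ * v.2) := by
  simp only [ev_sub, ev_mul, dt, im]
  simp [ev]

/-- the system of a finite invariant set of points -/
theorem exists_sys [DecidableEq PQ] (hd : 2 ≤ d) (hF : F.IsHomogeneous d) (hG : G.IsHomogeneous d)
    (hc : CoprimePreserving F G) (T : Finset PQ) (hT : ∀ P ∈ T, phi hc P ∈ T) :
    ∃ S : Sys {P // P ∈ T} d, ∀ P : {P // P ∈ T}, (S.f P : PQ) = phi hc P := by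
  let f : {P // P ∈ T} → {P // P ∈ T} := fun P => ⟨phi hc P, hT P P.2⟩
  obtain ⟨N, hN, he⟩ := exists_idem f
  have hcop : ∀ i : {P // P ∈ T}, IsCoprime (rp i).1 (rp i).2 := fun i => rp_cop _
  have hinj : ∀ i j : {P // P ∈ T}, i ≠ j → dt (rp i) (rp j) ≠ 0 :=
    fun i j h => rp_dt_ne (fun e => h (Subtype.ext e))
  have hhom : ∀ q : ℤ × ℤ, (C q.2 * F - C q.1 * G).IsHomogeneous d := by
    intro q
    apply MvPolynomial.IsHomogeneous.sub
    · simpa using (MvPolynomial.isHomogeneous_C (Fin 2) q.2).mul hF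
    · simpa using (MvPolynomial.isHomogeneous_C (Fin 2) q.1).mul hG
  have hzero : ∀ (Q P' : {P // P ∈ T}), f P' = Q → ev (C (rp Q).2 * F - C (rp Q).1 * G) (rp P') = 0
      := by
    intro Q P' h
    rw [ev_fibre]
    have h1 := rp_phi hc P'
    have h2 : (phi hc P' : PQ) = Q := congrArg Subtype.val h
    rw [h2] at h1
    rcases h1 with h1 | h1
    · rw [← h1, dt_self]
    · rw [h1]; unfold dt; simp; ring
  refine ⟨{
    v := fun P => rp P
    f := f
    cop := hcop
    inj := hinj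
    hA := ?_
    hB := ?_
    hC := ?_
    N := N
    hN := hN
    he := he }, fun P => rfl⟩
  · intro P Q hQ
    have h1 := prod_dt_dvd (univ.filter (fun P' => f P' = Q)) (fun P' => rp P')
      (fun i _ => hcop i) (fun i _ j _ h => hinj i j h) (hhom (rp Q))
      (fun i hi => hzero Q i (Finset.mem_filter.1 hi).2) (rp P)
    rw [ev_fibre] at h1
    rcases dt_pm (b := rp Q) (rp_phi hc P) with h2 | h2
    · change _ ∣ dt (rp (phi hc P)) (rp Q)
      rw [h2]; exact h1
    · change _ ∣ dt (rp (phi hc P)) (rp Q)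
      rw [h2]; exact (dvd_neg).2 h1
  · intro Q
    apply card_zeros_le _ (fun P' : {P // P ∈ T} => rp P') (fun i _ => hcop i)
      (fun i _ j _ h => hinj i j h) (hhom (rp Q)) (fibre_ne_zero (by omega) hF hG hc (rp_cop Q))
      (fun i hi => hzero Q i (Finset.mem_filter.1 hi).2)
  · intro α β γ δ hΔ s hs
    apply card_zeros_le s (fun P' : {P // P ∈ T} => rp P') (fun i _ => hcop i)
      (fun i _ j _ h => hinj i j h) (F := F * (C γ * X 0 + C δ * X 1) - G * (C α * X 0 + C β * X 1))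
      ?_ (moebius_ne_zero hd hF hc hΔ) ?_
    · have hlin : ∀ a b : ℤ, (C a * X 0 + C b * X 1 : MvPolynomial (Fin 2) ℤ).IsHomogeneous 1 := by
        intro a b
        apply MvPolynomial.IsHomogeneous.add
        · simpa using (MvPolynomial.isHomogeneous_C (Fin 2) a).mul
            (MvPolynomial.isHomogeneous_X ℤ (0 : Fin 2))
        · simpa using (MvPolynomial.isHomogeneous_C (Fin 2) b).mul
            (MvPolynomial.isHomogeneous_X ℤ (1 : Fin 2))
      exact MvPolynomial.IsHomogeneous.sub (hF.mul (hlin _ _)) (hG.mul (hlin _ _))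
    · intro i hi
      rw [ev_moebius]
      have h0 := hs i hi
      rcases dt_pm (b := (α * (rp i).1 + β * (rp i).2, γ * (rp i).1 + δ * (rp i).2))
        (rp_phi hc i) with h2 | h2
      · change dt (rp (phi hc i)) _ = 0 at h0
        rw [← h2]; exact h0
      · change dt (rp (phi hc i)) _ = 0 at h0
        rw [h2] at h0
        linarith

/-- a finite set of points with finite orbits lies in a finite invariant set -/
lemma exists_invariant {X : Type*} [DecidableEq X] (f : X → X) (T : Finset X)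
    (hT : ∀ P ∈ T, ∃ m n : ℕ, m < n ∧ f^[n] P = f^[m] P) :
    ∃ T' : Finset X, T ⊆ T' ∧ ∀ P ∈ T', f P ∈ T' := by
  classical
  choose! m n hmn h using hT
  refine ⟨T.biUnion (fun P => (Finset.range (n P)).image (fun k => f^[k] P)), ?_, ?_⟩
  · intro P hP
    rw [Finset.mem_biUnion]
    refine ⟨P, hP, Finset.mem_image.2 ⟨0, ?_, rfl⟩⟩
    have := hmn P hP
    exact Finset.mem_range.2 (by omega)
  · intro Q hQ
    rw [Finset.mem_biUnion] at hQ ⊢
    obtain ⟨P, hP, hQ⟩ := hQ
    obtain ⟨k, hk, rfl⟩ := Finset.mem_image.1 hQ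
    rw [Finset.mem_range] at hk
    refine ⟨P, hP, ?_⟩
    rw [← Function.iterate_succ_apply' f k P]
    rcases Nat.lt_or_ge (k + 1) (n P) with h1 | h1
    · exact Finset.mem_image.2 ⟨k + 1, Finset.mem_range.2 h1, rfl⟩
    · have h2 : k + 1 = n P := by omega
      refine Finset.mem_image.2 ⟨m P, Finset.mem_range.2 (hmn P hP), ?_⟩
      show f^[m P] P = f^[k + 1] P
      rw [h2, h P hP]

end maps

end Pool.Agent.TH856.GR
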