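import Pool.Agent.TH856.GR.Core

set_option autoImplicit false

/-!
# Strictly preperiodic points
-/

namespace Pool.Agent.TH856.GR

open Finset Function

namespace Sys

variable {ι : Type} [Fintype ι] [DecidableEq ι] {d : ℕ} (S : Sys ι d)

/-- strictly preperiodic points in the fibre of the periodic point `R` -/
def L (R : ι) : Finset ι := univ.filter (fun x => ¬ S.Per x ∧ S.f x = S.f R)

/-- points at least two steps away from the periodic points, with shadow `R` -/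
def Y (R : ι) : Finset ι := univ.filter (fun y => ¬ S.Per y ∧ ¬ S.Per (S.f y) ∧ S.e y = R)

lemma mem_L {R x : ι} : x ∈ S.L R ↔ ¬ S.Per x ∧ S.f x = S.f R := by simp [L]

lemma mem_Y {R y : ι} : y ∈ S.Y R ↔ ¬ S.Per y ∧ ¬ S.Per (S.f y) ∧ S.e y = R := by simp [Y]

lemma e_of_L {R x : ι} (hR : S.Per R) (hx : x ∈ S.L R) : S.e x = R := by
  rw [mem_L] at hx
  apply S.f_inj (S.per_e x) hR
  rw [← e_f, hx.2]
  exact S.per_f hR

lemma card_L {R : ι} (hR : S.Per R) : (S.L R).card + 1 ≤ d := by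
  have hn : R ∉ S.L R := by rw [mem_L]; tauto
  rw [← Finset.card_insert_of_notMem hn]
  refine (Finset.card_le_card ?_).trans (S.hB (S.f R))
  intro x hx
  rcases Finset.mem_insert.1 hx with rfl | hx
  · simp
  · rw [mem_L] at hx
    simp [hx.2]

lemma non_cases {x : ι} (hx : ¬ S.Per x) : x ∈ S.L (S.e x) ∨ x ∈ S.Y (S.e x) := by
  rw [mem_L, mem_Y]
  by_cases h : S.Per (S.f x)
  · left
    refine ⟨hx, ?_⟩
    rw [← e_f]
    exact h.symm
  · right
    exact ⟨hx, h, rfl⟩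

lemma D_one_L {R R' x : ι} (hR : S.Per R) (hR' : S.Per R') (hne : R' ≠ R) (hx : x ∈ S.L R) :
    S.D x R' = 1 := by
  have h1 := S.e_of_L hR hx
  rw [mem_L] at hx
  exact S.shadow hx.1 hR' (by rw [h1]; exact hne)

lemma D_one_Y {R R' y : ι} (hR' : S.Per R') (hne : R' ≠ R) (hy : y ∈ S.Y R) :
    S.D y R' = 1 := by
  rw [mem_Y] at hy
  exact S.shadow hy.1 hR' (by rw [hy.2.2]; exact hne)

/-- points of `Y R` have distance one to the fibres of the other periodic points -/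
lemma cross {R R' y z : ι} (hR' : S.Per R') (hR : S.Per R) (hne : R' ≠ R) (hy : y ∈ S.Y R)
    (hz : z ∈ S.L R') : S.D y z = 1 := by
  rw [mem_Y] at hy
  rw [mem_L] at hz
  have h1 : S.f R' ≠ S.f y := by
    intro h
    apply hy.2.1
    rw [← h]
    exact S.per_f hR'
  have h2 := S.dvd_one' h1 hz.2
  have h3 : S.D (S.f y) (S.f R') = 1 := by
    apply S.shadow hy.2.1 (S.per_f hR')
    rw [e_f, hy.2.2]
    intro h
    exact hne (S.f_inj hR' hR h)
  rw [h3] at h2
  exact Nat.dvd_one.1 h2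

/-- if the fibre of `R'` is large then `Y R` is empty -/
lemma Y_empty {R R' : ι} (hR' : S.Per R') (hR : S.Per R) (hne : R' ≠ R)
    (h : 3 ≤ (S.L R').card) : S.Y R = ∅ := by
  rw [Finset.eq_empty_iff_forall_notMem]
  intro y hy
  have hyR : y ≠ R := by
    rintro rfl
    exact (S.mem_Y.1 hy).1 hR
  have := S.card_eqdist' hyR (T := S.L R') (by
    intro z hz
    rw [S.D_comm z y, S.cross hR' hR hne hy hz, S.D_one_L hR' hR hne.symm hz])
  omega

/-- if the fibre of `R'` has a strictly preperiodic point then `Y R` has at most two points -/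
lemma card_Y_le_two {R R' : ι} (hR' : S.Per R') (hR : S.Per R) (hne : R' ≠ R)
    (h : (S.L R').Nonempty) : (S.Y R).card ≤ 2 := by
  obtain ⟨z, hz⟩ := h
  have hzR : R' ≠ z := by
    rintro rfl
    exact (S.mem_L.1 hz).1 hR'
  exact S.card_eqdist' hzR (T := S.Y R) (fun y hy => by
    rw [S.cross hR' hR hne hy hz, S.D_one_Y hR' hne hy])

/-! ### the fibre of a periodic point -/

/-- divisibility at the fibre of a periodic point -/
lemma prod_L_dvd {R P : ι} (h : S.f R ≠ S.f P) (hR : S.Per R) :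
    S.D P R * ∏ x ∈ S.L R, S.D P x ∣ S.D (S.f P) (S.f R) := by
  have hn : R ∉ S.L R := by rw [mem_L]; tauto
  have := S.prod_dvd h (T := insert R (S.L R)) (by
    intro x hx
    rcases Finset.mem_insert.1 hx with rfl | hx
    · rfl
    · exact (S.mem_L.1 hx).2)
  rwa [Finset.prod_insert hn] at this

/-- two points, small products -/
lemma card_le_four {y1 y2 : ι} (hy : y1 ≠ y2) {T : Finset ι} (h1 : y1 ∉ T) (h2 : y2 ∉ T)
    (h : (∏ x ∈ T, S.D y1 x) * (∏ x ∈ T, S.D y2 x) ≤ 4) : T.card ≤ 4 := by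
  rw [← Finset.prod_mul_distrib] at h
  have hT1 : (T.filter (fun x => S.D y1 x = S.D y2 x)).card ≤ 2 := by
    apply S.card_eqdist' hy
    intro x hx
    rw [S.D_comm x y1, S.D_comm x y2]
    exact (Finset.mem_filter.1 hx).2
  have hpos : ∀ x ∈ T, 0 < S.D y1 x ∧ 0 < S.D y2 x := by
    intro x hx
    exact ⟨S.D_pos (fun e => h1 (e ▸ hx)), S.D_pos (fun e => h2 (e ▸ hx))⟩
  have h3 : 2 ^ (T.filter (fun x => ¬ S.D y1 x = S.D y2 x)).card ≤
      ∏ x ∈ T.filter (fun x => ¬ S.D y1 x = S.D y2 x), (S.D y1 x * S.D y2 x) := by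
    apply Finset.pow_card_le_prod
    intro x hx
    rw [Finset.mem_filter] at hx
    obtain ⟨p1, p2⟩ := hpos x hx.1
    have := hx.2
    have : 2 ≤ S.D y1 x ∨ 2 ≤ S.D y2 x := by omega
    rcases this with h | h <;> nlinarith
  have h4 : ∏ x ∈ T.filter (fun x => ¬ S.D y1 x = S.D y2 x), (S.D y1 x * S.D y2 x) ≤
      ∏ x ∈ T, (S.D y1 x * S.D y2 x) := by
    apply Finset.prod_le_prod_of_subset_of_one_le' (Finset.filter_subset _ _)
    intro x hx _
    obtain ⟨p1, p2⟩ := hpos x hx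
    exact Nat.mul_pos p1 p2
  have h5 : (T.filter (fun x => ¬ S.D y1 x = S.D y2 x)).card ≤ 2 := by
    by_contra hcon
    push Not at hcon
    have : 2 ^ 3 ≤ 2 ^ (T.filter (fun x => ¬ S.D y1 x = S.D y2 x)).card :=
      Nat.pow_le_pow_right (by norm_num) hcon
    omega
  have h6 := Finset.card_filter_add_card_filter_not (s := T) (fun x => S.D y1 x = S.D y2 x)
  omega

/-! ### the basin of a fixed point -/

lemma root_aux {R : ι} (hR : S.f R = R) {z : ι} (hz : ¬ S.Per z) (hez : S.e z = R) :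
    ∃ P ∈ S.L R, S.D z R ∣ S.D P R := by
  have hPR : S.Per R := by rw [← hez]; exact S.per_e z
  have key : ∀ m : ℕ, ∀ z : ι, S.Per (S.f^[m] z) → ¬ S.Per z → S.e z = R →
      ∃ P ∈ S.L R, S.D z R ∣ S.D P R := by
    intro m
    induction m with
    | zero => intro z h1 h2; exact absurd h1 h2
    | succ m ih =>
      intro z h1 h2 h3
      rw [Function.iterate_succ_apply] at h1
      by_cases hfz : S.Per (S.f z)
      · refine ⟨z, ?_, dvd_rfl⟩
        rw [mem_L]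
        refine ⟨h2, ?_⟩
        have : S.e (S.f z) = S.f z := hfz
        rw [← this, e_f, h3]
      · obtain ⟨P, hP, hd⟩ := ih (S.f z) h1 hfz (by rw [e_f, h3, hR])
        refine ⟨P, hP, Dvd.dvd.trans ?_ hd⟩
        have h4 : R ≠ S.f z := by
          intro h
          apply hfz
          rw [← h]
          exact hPR
        have := S.dvd_one' (P := z) (Q := R) h4 hR
        exact this
  exact key S.N z (S.per_e z) hz hez

/-- the root of a point of `Y R`, for a fixed point `R` -/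
lemma root {R : ι} (hR : S.f R = R) {y : ι} (hy : y ∈ S.Y R) :
    ∃ P ∈ S.L R, S.D y R * ∏ x ∈ S.L R, S.D y x ∣ S.D P R := by
  have hy' := S.mem_Y.1 hy
  have hPR : S.Per R := by rw [← hy'.2.2]; exact S.per_e y
  obtain ⟨P, hP, hd⟩ := S.root_aux hR hy'.2.1 (by rw [e_f, hy'.2.2, hR])
  refine ⟨P, hP, Dvd.dvd.trans ?_ hd⟩
  have h4 : S.f R ≠ S.f y := by
    intro h
    apply hy'.2.1
    rw [← h]
    exact S.per_f hPR
  have := S.prod_L_dvd h4 hPR
  rwa [hR] at this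

lemma Y_not_mem_L {R R' y : ι} (hR' : S.Per R') (hy : y ∈ S.Y R) : y ∉ S.L R' := by
  intro h
  apply (S.mem_Y.1 hy).2.1
  rw [(S.mem_L.1 h).2]
  exact S.per_f hR'

lemma root_eq {R : ι} {y P : ι} (hP : P ∈ S.L R)
    (h : S.D y R * ∏ x ∈ S.L R, S.D y x ∣ S.D P R) : S.D y P = S.D y R := by
  apply S.threepoint
  refine Dvd.dvd.trans ?_ h
  rw [mul_comm]
  exact Nat.mul_dvd_mul_left _ (Finset.dvd_prod_of_mem _ hP)

lemma card_Y_le_two_mul {R : ι} (hR : S.f R = R) (hPR : S.Per R) :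
    (S.Y R).card ≤ 2 * (S.L R).card := by
  have hsub : S.Y R ⊆ (S.L R).biUnion (fun P => univ.filter (fun y => S.D y P = S.D y R)) := by
    intro y hy
    obtain ⟨P, hP, h⟩ := S.root hR hy
    rw [Finset.mem_biUnion]
    exact ⟨P, hP, by simpa using S.root_eq hP h⟩
  refine (Finset.card_le_card hsub).trans ((Finset.card_biUnion_le_card_mul _ _ 2 ?_).trans ?_)
  · intro P hP
    apply S.card_eqdist
    rintro rfl
    exact (S.mem_L.1 hP).1 hPR
  · rw [mul_comm]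

/-- two points of `Y R` with the same root -/
lemma same_root {R : ι} (hPR : S.Per R) {y1 y2 P : ι} (hy1 : y1 ∈ S.Y R)
    (hy2 : y2 ∈ S.Y R) (hne : y1 ≠ y2) (hP : P ∈ S.L R)
    (h1 : S.D y1 R * ∏ x ∈ S.L R, S.D y1 x ∣ S.D P R)
    (h2 : S.D y2 R * ∏ x ∈ S.L R, S.D y2 x ∣ S.D P R) : (S.L R).card ≤ 5 := by
  have e1 := S.root_eq hP h1
  have e2 := S.root_eq hP h2
  have hPne : P ≠ R := by
    rintro rfl
    exact (S.mem_L.1 hP).1 hPR
  have hq : 0 < S.D P R := S.D_pos hPne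
  have hw1 : 0 < S.D y1 R := S.D_pos (by rintro rfl; exact (S.mem_Y.1 hy1).1 hPR)
  have hw2 : 0 < S.D y2 R := S.D_pos (by rintro rfl; exact (S.mem_Y.1 hy2).1 hPR)
  have hpt := S.ptolemy P R y1 y2
  rw [S.D_comm P y1, S.D_comm R y2, S.D_comm P y2, S.D_comm R y1, e1, e2] at hpt
  have hD : 0 < S.D y1 y2 := S.D_pos hne
  have h1' := Nat.le_of_dvd hq h1
  have h2' := Nat.le_of_dvd hq h2
  rw [← Finset.mul_prod_erase _ _ hP, e1] at h1'
  rw [← Finset.mul_prod_erase _ _ hP, e2] at h2'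
  have hle : (∏ x ∈ (S.L R).erase P, S.D y1 x) * (∏ x ∈ (S.L R).erase P, S.D y2 x) ≤ 4 := by
    set w1 := S.D y1 R
    set w2 := S.D y2 R
    set q := S.D P R
    set p1 := ∏ x ∈ (S.L R).erase P, S.D y1 x
    set p2 := ∏ x ∈ (S.L R).erase P, S.D y2 x
    have hq2 : q ≤ 2 * (w1 * w2) := by
      calc q = q * 1 := (mul_one _).symm
        _ ≤ q * S.D y1 y2 := Nat.mul_le_mul_left _ hD
        _ ≤ _ := hpt
        _ = 2 * (w1 * w2) := by ring
    have h3 : (w1 * (w1 * p1)) * (w2 * (w2 * p2)) ≤ (2 * (w1 * w2)) * (2 * (w1 * w2)) :=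
      Nat.mul_le_mul (h1'.trans hq2) (h2'.trans hq2)
    have h4 : (w1 * w2) * (w1 * w2) * (p1 * p2) ≤ (w1 * w2) * (w1 * w2) * 4 := by
      calc _ = (w1 * (w1 * p1)) * (w2 * (w2 * p2)) := by ring
        _ ≤ _ := h3
        _ = _ := by ring
    exact Nat.le_of_mul_le_mul_left h4 (by positivity)
  have := S.card_le_four hne (T := (S.L R).erase P)
    (fun h => S.Y_not_mem_L hPR hy1 (Finset.mem_of_mem_erase h))
    (fun h => S.Y_not_mem_L hPR hy2 (Finset.mem_of_mem_erase h)) hle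
  rw [Finset.card_erase_of_mem hP] at this
  omega

/-- two points of `Y R` with different roots -/
lemma diff_root {R : ι} (hPR : S.Per R) {y1 y2 P1 P2 : ι} (hy1 : y1 ∈ S.Y R)
    (hy2 : y2 ∈ S.Y R) (hne : y1 ≠ y2) (hP1 : P1 ∈ S.L R) (hP2 : P2 ∈ S.L R) (hP : P1 ≠ P2)
    (h1 : S.D y1 R * ∏ x ∈ S.L R, S.D y1 x ∣ S.D P1 R)
    (h2 : S.D y2 R * ∏ x ∈ S.L R, S.D y2 x ∣ S.D P2 R) : (S.L R).card ≤ 6 := by
  have e1 := S.root_eq hP1 h1
  have e2 := S.root_eq hP2 h2
  have hq1 : 0 < S.D P1 R := S.D_pos (by rintro rfl; exact (S.mem_L.1 hP1).1 hPR)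
  have hq2 : 0 < S.D P2 R := S.D_pos (by rintro rfl; exact (S.mem_L.1 hP2).1 hPR)
  have hw1 : 0 < S.D y1 R := S.D_pos (by rintro rfl; exact (S.mem_Y.1 hy1).1 hPR)
  have hw2 : 0 < S.D y2 R := S.D_pos (by rintro rfl; exact (S.mem_Y.1 hy2).1 hPR)
  have hx1 : 0 < S.D y1 P2 := S.D_pos (by
    rintro rfl; exact S.Y_not_mem_L hPR hy1 hP2)
  have hx2 : 0 < S.D y2 P1 := S.D_pos (by
    rintro rfl; exact S.Y_not_mem_L hPR hy2 hP1)
  have hD : 0 < S.D y1 y2 := S.D_pos hne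
  have hpt1 := S.ptolemy P1 R y1 y2
  rw [S.D_comm P1 y1, S.D_comm R y2, S.D_comm P1 y2, S.D_comm R y1, e1] at hpt1
  have hpt2 := S.ptolemy P2 R y1 y2
  rw [S.D_comm P2 y1, S.D_comm R y2, S.D_comm P2 y2, S.D_comm R y1, e2] at hpt2
  have h1' := Nat.le_of_dvd hq1 h1
  have h2' := Nat.le_of_dvd hq2 h2
  have m2 : P2 ∈ (S.L R).erase P1 := Finset.mem_erase.2 ⟨hP.symm, hP2⟩
  rw [← Finset.mul_prod_erase _ _ hP1, ← Finset.mul_prod_erase _ _ m2, e1] at h1'
  rw [← Finset.mul_prod_erase _ _ hP1, ← Finset.mul_prod_erase _ _ m2, e2] at h2'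
  have hle : (∏ x ∈ ((S.L R).erase P1).erase P2, S.D y1 x) *
      (∏ x ∈ ((S.L R).erase P1).erase P2, S.D y2 x) ≤ 4 := by
    set w1 := S.D y1 R
    set w2 := S.D y2 R
    set x1 := S.D y1 P2
    set x2 := S.D y2 P1
    set q1 := S.D P1 R
    set q2 := S.D P2 R
    set p1 := ∏ x ∈ ((S.L R).erase P1).erase P2, S.D y1 x
    set p2 := ∏ x ∈ ((S.L R).erase P1).erase P2, S.D y2 x
    have a1 : q1 ≤ w1 * (w2 + x2) := by
      calc q1 = q1 * 1 := (mul_one _).symm
        _ ≤ q1 * S.D y1 y2 := Nat.mul_le_mul_left _ hD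
        _ ≤ _ := hpt1
        _ = w1 * (w2 + x2) := by ring
    have a2 : q2 ≤ w2 * (w1 + x1) := by
      calc q2 = q2 * 1 := (mul_one _).symm
        _ ≤ q2 * S.D y1 y2 := Nat.mul_le_mul_left _ hD
        _ ≤ _ := hpt2
        _ = w2 * (w1 + x1) := by ring
    have b1 : w1 * x1 * p1 ≤ w2 + x2 := by
      apply Nat.le_of_mul_le_mul_left _ hw1
      calc w1 * (w1 * x1 * p1) = w1 * (w1 * (x1 * p1)) := by ring
        _ ≤ q1 := h1'
        _ ≤ _ := a1
    have b2 : w2 * x2 * p2 ≤ w1 + x1 := by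
      apply Nat.le_of_mul_le_mul_left _ hw2
      calc w2 * (w2 * x2 * p2) = w2 * (x2 * (w2 * p2)) := by ring
        _ ≤ q2 := h2'
        _ ≤ _ := a2
    have c1 : w1 + x1 ≤ w1 * x1 + 1 := by nlinarith
    have c2 : w2 + x2 ≤ w2 * x2 + 1 := by nlinarith
    have c3 : w1 + x1 ≤ 2 * (w1 * x1) := by nlinarith
    have c4 : w2 + x2 ≤ 2 * (w2 * x2) := by nlinarith
    have h3 : (w1 * x1 * p1) * (w2 * x2 * p2) ≤ (2 * (w2 * x2)) * (2 * (w1 * x1)) :=
      Nat.mul_le_mul (b1.trans c4) (b2.trans c3)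
    have h4 : (w1 * x1) * (w2 * x2) * (p1 * p2) ≤ (w1 * x1) * (w2 * x2) * 4 := by
      calc _ = (w1 * x1 * p1) * (w2 * x2 * p2) := by ring
        _ ≤ _ := h3
        _ = _ := by ring
    exact Nat.le_of_mul_le_mul_left h4 (by positivity)
  have := S.card_le_four hne (T := ((S.L R).erase P1).erase P2)
    (fun h => S.Y_not_mem_L hPR hy1 (Finset.mem_of_mem_erase (Finset.mem_of_mem_erase h)))
    (fun h => S.Y_not_mem_L hPR hy2 (Finset.mem_of_mem_erase (Finset.mem_of_mem_erase h))) hle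
  rw [Finset.card_erase_of_mem m2, Finset.card_erase_of_mem hP1] at this
  omega

lemma card_Y_le_one {R : ι} (hR : S.f R = R) (hPR : S.Per R) (h : 7 ≤ (S.L R).card) :
    (S.Y R).card ≤ 1 := by
  rw [Finset.card_le_one]
  intro y1 hy1 y2 hy2
  by_contra hne
  obtain ⟨P1, hP1, h1⟩ := S.root hR hy1
  obtain ⟨P2, hP2, h2⟩ := S.root hR hy2
  by_cases hP : P1 = P2
  · subst hP
    have := S.same_root hPR hy1 hy2 hne hP1 h1 h2
    omega
  · have := S.diff_root hPR hy1 hy2 hne hP1 hP2 hP h1 h2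
    omega

lemma card_Y_le_card {R : ι} (hR : S.f R = R) (hPR : S.Per R) (h : 6 ≤ (S.L R).card) :
    (S.Y R).card ≤ (S.L R).card := by
  classical
  choose g hg1 hg2 using fun (y : {y // y ∈ S.Y R}) => S.root hR y.2
  rw [← Fintype.card_coe (S.Y R)]
  have : Fintype.card {y // y ∈ S.Y R} ≤ Fintype.card {y // y ∈ S.L R} := by
    apply Fintype.card_le_of_injective (fun y => ⟨g y, hg1 y⟩)
    intro y1 y2 h12
    by_contra hne
    have h12' : g y1 = g y2 := congrArg Subtype.val h12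
    have h2 := hg2 y2
    rw [← h12'] at h2
    have := S.same_root hPR y1.2 y2.2 (fun h => hne (Subtype.ext h)) (hg1 y1) (hg2 y1) h2
    omega
  rwa [Fintype.card_coe (S.L R)] at this

end Sys

end Pool.Agent.TH856.GR
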