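import Pool.Agent.TH856.GR.Forms

set_option autoImplicit false

/-!
# Finite invariant sets of a map with everywhere good reduction
-/

namespace Pool.Agent.TH856.GR

open Finset Function

lemma dt_comm (a b : ℤ × ℤ) : dt a b = - dt b a := by unfold dt; ring

lemma dt_self (a : ℤ × ℤ) : dt a a = 0 := by unfold dt; ring

lemma plucker (a b c e : ℤ × ℤ) :
    dt a b * dt c e = dt a c * dt b e - dt a e * dt b c := by unfold dt; ring

/-- a finite dynamical system of primitive vectors having the divisibility properties of a map of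
degree `d` with everywhere good reduction; `N` is a period such that `f^N` is idempotent -/
structure Sys (ι : Type) [Fintype ι] [DecidableEq ι] (d : ℕ) where
  v : ι → ℤ × ℤ
  f : ι → ι
  cop : ∀ i, IsCoprime (v i).1 (v i).2
  inj : ∀ i j, i ≠ j → dt (v i) (v j) ≠ 0
  hA : ∀ P Q, Q ≠ f P →
    (∏ P' ∈ univ.filter (fun P' => f P' = Q), dt (v P) (v P')) ∣ dt (v (f P)) (v Q)
  hB : ∀ Q, (univ.filter (fun P' => f P' = Q)).card ≤ d
  hC : ∀ α β γ δ : ℤ, α * δ - β * γ ≠ 0 → ∀ s : Finset ι,
    (∀ i ∈ s, dt (v (f i)) (α * (v i).1 + β * (v i).2, γ * (v i).1 + δ * (v i).2) = 0) →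
    s.card ≤ d + 1
  N : ℕ
  hN : 0 < N
  he : ∀ x, f^[N] (f^[N] x) = f^[N] x

namespace Sys

variable {ι : Type} [Fintype ι] [DecidableEq ι] {d : ℕ} (S : Sys ι d)

/-- distance -/
def D (i j : ι) : ℕ := (dt (S.v i) (S.v j)).natAbs

lemma D_comm (i j : ι) : S.D i j = S.D j i := by
  unfold D; rw [dt_comm, Int.natAbs_neg]

lemma D_self (i : ι) : S.D i i = 0 := by
  unfold D; rw [dt_self]; rfl

lemma D_pos {i j : ι} (h : i ≠ j) : 0 < S.D i j :=
  Int.natAbs_pos.2 (S.inj i j h)

lemma D_eq_zero {i j : ι} : S.D i j = 0 ↔ i = j := by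
  constructor
  · intro h
    by_contra hne
    exact (S.D_pos hne).ne' h
  · rintro rfl
    exact S.D_self i

/-- (A) for a subset of a fibre -/
lemma prod_dvd {P Q : ι} (h : Q ≠ S.f P) {T : Finset ι} (hT : ∀ x ∈ T, S.f x = Q) :
    (∏ x ∈ T, S.D P x) ∣ S.D (S.f P) Q := by
  have h1 : (∏ x ∈ T, S.D P x) ∣ ∏ P' ∈ univ.filter (fun P' => S.f P' = Q), S.D P P' :=
    Finset.prod_dvd_prod_of_subset _ _ _ (fun x hx => by simpa using hT x hx)
  refine h1.trans ?_
  have h2 := S.hA P Q h
  have h3 := Int.natAbs_dvd_natAbs.2 h2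
  unfold D
  rwa [← Int.natAbsHom_apply, map_prod] at h3

lemma dvd_one' {P Q x : ι} (h : Q ≠ S.f P) (hx : S.f x = Q) : S.D P x ∣ S.D (S.f P) Q := by
  have := S.prod_dvd h (T := {x}) (by simpa using hx)
  simpa using this

lemma dvd_two {P Q x y : ι} (h : Q ≠ S.f P) (hx : S.f x = Q) (hy : S.f y = Q) (hxy : x ≠ y) :
    S.D P x * S.D P y ∣ S.D (S.f P) Q := by
  have := S.prod_dvd h (T := {x, y}) (by
    intro z hz
    rcases Finset.mem_insert.1 hz with rfl | hz
    · exact hx
    · rw [Finset.mem_singleton.1 hz]; exact hy)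
  rwa [Finset.prod_pair hxy] at this

/-- Ptolemy's inequality -/
lemma ptolemy (a b c e : ι) :
    S.D a b * S.D c e ≤ S.D a c * S.D b e + S.D a e * S.D b c := by
  unfold D
  rw [← Int.natAbs_mul, ← Int.natAbs_mul, ← Int.natAbs_mul, plucker]
  exact (Int.natAbs_sub_le _ _)

/-- two different points have the same distance to at most two points -/
lemma card_eqdist {A B : ι} (h : A ≠ B) :
    (univ.filter (fun y => S.D y A = S.D y B)).card ≤ 2 := by
  have hsub : univ.filter (fun y => S.D y A = S.D y B) ⊆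
      univ.filter (fun y => dt (S.v y) (S.v A) = dt (S.v y) (S.v B)) ∪
      univ.filter (fun y => dt (S.v y) (S.v A) = - dt (S.v y) (S.v B)) := by
    intro y hy
    simp only [mem_filter, mem_univ, true_and, mem_union] at hy ⊢
    exact Int.natAbs_eq_natAbs_iff.1 hy
  have h1 : (univ.filter (fun y => dt (S.v y) (S.v A) = dt (S.v y) (S.v B))).card ≤ 1 := by
    rw [Finset.card_le_one]
    intro x hx y hy
    simp only [mem_filter, mem_univ, true_and] at hx hy
    by_contra hne
    have := plucker (S.v x) (S.v y) (S.v A) (S.v B)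
    rw [hx, hy] at this
    have h0 : dt (S.v x) (S.v y) * dt (S.v A) (S.v B) = 0 := by rw [this]; ring
    rcases mul_eq_zero.1 h0 with h0 | h0
    · exact S.inj x y hne h0
    · exact S.inj A B h h0
  have h2 : (univ.filter (fun y => dt (S.v y) (S.v A) = - dt (S.v y) (S.v B))).card ≤ 1 := by
    rw [Finset.card_le_one]
    intro x hx y hy
    simp only [mem_filter, mem_univ, true_and] at hx hy
    by_contra hne
    have := plucker (S.v x) (S.v y) (S.v A) (S.v B)
    rw [hx, hy] at this
    have h0 : dt (S.v x) (S.v y) * dt (S.v A) (S.v B) = 0 := by rw [this]; ring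
    rcases mul_eq_zero.1 h0 with h0 | h0
    · exact S.inj x y hne h0
    · exact S.inj A B h h0
  calc _ ≤ _ := Finset.card_le_card hsub
    _ ≤ _ := Finset.card_union_le _ _
    _ ≤ 1 + 1 := by omega

lemma card_eqdist' {A B : ι} (h : A ≠ B) {T : Finset ι} (hT : ∀ y ∈ T, S.D y A = S.D y B) :
    T.card ≤ 2 :=
  (Finset.card_le_card (fun y hy => by simpa using hT y hy)).trans (S.card_eqdist h)

/-- three point lemma -/
lemma threepoint {y A B : ι} (h : S.D y A * S.D y B ∣ S.D A B) : S.D y A = S.D y B := by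
  have key : ∀ a b c : ι, (S.D c a ∣ S.D a b) → S.D c a ∣ S.D c b := by
    intro a b c hd
    unfold D at hd ⊢
    rw [Int.natAbs_dvd_natAbs] at hd ⊢
    obtain ⟨p, q, hpq⟩ := S.cop a
    -- `dt(a,b) c = dt(c,b) a - dt(c,a) b`
    have e1 : dt (S.v c) (S.v b) * (S.v a).1 =
        dt (S.v a) (S.v b) * (S.v c).1 + dt (S.v c) (S.v a) * (S.v b).1 := by unfold dt; ring
    have e2 : dt (S.v c) (S.v b) * (S.v a).2 =
        dt (S.v a) (S.v b) * (S.v c).2 + dt (S.v c) (S.v a) * (S.v b).2 := by unfold dt; ring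
    have e3 : dt (S.v c) (S.v b) = dt (S.v a) (S.v b) * (p * (S.v c).1 + q * (S.v c).2) +
        dt (S.v c) (S.v a) * (p * (S.v b).1 + q * (S.v b).2) := by
      linear_combination (- dt (S.v c) (S.v b)) * hpq + p * e1 + q * e2
    rw [e3]
    exact dvd_add (hd.mul_right _) (dvd_mul_right _ _)
  apply Nat.dvd_antisymm
  · exact key A B y ((dvd_mul_right _ _).trans h)
  · apply key B A y
    rw [S.D_comm B A]
    exact (dvd_mul_left _ _).trans h

/-! ### periodic points -/

/-- the idempotent power of `f` -/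
def e (x : ι) : ι := S.f^[S.N] x

/-- periodic points -/
def Per (x : ι) : Prop := S.e x = x

instance : DecidablePred S.Per := fun x => by unfold Per; infer_instance

lemma e_e (x : ι) : S.e (S.e x) = S.e x := S.he x

lemma per_e (x : ι) : S.Per (S.e x) := S.e_e x

lemma e_f (x : ι) : S.e (S.f x) = S.f (S.e x) := by
  unfold e
  rw [← Function.iterate_succ_apply, Function.iterate_succ_apply']

lemma per_f {x : ι} (h : S.Per x) : S.Per (S.f x) := by
  unfold Per at *
  rw [e_f, h]

lemma f_inj {x y : ι} (hx : S.Per x) (hy : S.Per y) (h : S.f x = S.f y) : x = y := by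
  unfold Per e at hx hy
  obtain ⟨n, hn⟩ := Nat.exists_eq_succ_of_ne_zero S.hN.ne'
  rw [hn, Function.iterate_succ_apply] at hx hy
  rw [← hx, ← hy, h]

lemma D_dvd_f {x y : ι} (hx : S.Per x) (hy : S.Per y) : S.D x y ∣ S.D (S.f x) (S.f y) := by
  by_cases h : x = y
  · rw [h, S.D_self, S.D_self]
  · apply S.dvd_one' _ rfl
    intro h'
    exact h (S.f_inj hx hy h'.symm)

lemma per_iter {x : ι} (h : S.Per x) (n : ℕ) : S.Per (S.f^[n] x) := by
  induction n with
  | zero => exact h
  | succ n ih => rw [Function.iterate_succ_apply']; exact S.per_f ih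

lemma D_dvd_iter {x y : ι} (hx : S.Per x) (hy : S.Per y) (n : ℕ) :
    S.D x y ∣ S.D (S.f^[n] x) (S.f^[n] y) := by
  induction n with
  | zero => exact dvd_rfl
  | succ n ih =>
    rw [Function.iterate_succ_apply', Function.iterate_succ_apply']
    exact ih.trans (S.D_dvd_f (S.per_iter hx n) (S.per_iter hy n))

lemma D_f {x y : ι} (hx : S.Per x) (hy : S.Per y) : S.D (S.f x) (S.f y) = S.D x y := by
  apply Nat.dvd_antisymm _ (S.D_dvd_f hx hy)
  obtain ⟨n, hn⟩ := Nat.exists_eq_succ_of_ne_zero S.hN.ne'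
  have := S.D_dvd_iter (S.per_f hx) (S.per_f hy) n
  rw [← Function.iterate_succ_apply, ← Function.iterate_succ_apply, ← hn] at this
  unfold Per e at hx hy
  rwa [hx, hy] at this

/-- a strictly preperiodic point has distance one to every periodic point except its shadow -/
lemma shadow {x R : ι} (hx : ¬ S.Per x) (hR : S.Per R) (hne : R ≠ S.e x) : S.D x R = 1 := by
  have key : ∀ m : ℕ, ∀ x R : ι, S.Per (S.f^[m] x) → ¬ S.Per x → S.Per R → R ≠ S.e x →
      S.D x R = 1 := by
    intro m
    induction m with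
    | zero => intro x R h1 h2; exact absurd h1 h2
    | succ m ih =>
      intro x R h1 h2 hR hne
      rw [Function.iterate_succ_apply] at h1
      have hfR : S.f R ≠ S.e (S.f x) := by
        rw [e_f]
        intro h
        exact hne (S.f_inj hR (S.per_e x) h)
      by_cases hfx : S.Per (S.f x)
      · have e1 : S.f (S.e x) = S.f x := by rw [← e_f]; exact hfx
        have hxe : x ≠ S.e x := fun h => h2 h.symm
        have h3 : S.f x ≠ S.f R := by
          intro h
          apply hfR
          rw [← h]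
          exact hfx.symm
        have h4 := S.dvd_two (P := R) (Q := S.f x) h3 rfl e1 hxe
        rw [← e1, S.D_f hR (S.per_e x)] at h4
        have h5 : S.D R x ∣ 1 := by
          have hpos : 0 < S.D R (S.e x) := S.D_pos hne
          obtain ⟨c, hc⟩ := h4
          refine ⟨c, ?_⟩
          have : S.D R (S.e x) * 1 = S.D R (S.e x) * (S.D R x * c) := by
            rw [mul_one]
            conv_lhs => rw [hc]
            ring
          exact Nat.eq_of_mul_eq_mul_left hpos this
        rw [S.D_comm]
        exact Nat.dvd_one.1 h5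
      · have h3 : S.f x ≠ S.f R := by
          intro h
          apply hfx
          rw [h]
          exact S.per_f hR
        have h4 := S.dvd_one' (P := R) (Q := S.f x) h3 rfl
        have h5 := ih (S.f x) (S.f R) h1 hfx (S.per_f hR) hfR
        rw [S.D_comm (S.f R) (S.f x), h5] at h4
        rw [S.D_comm]
        exact Nat.dvd_one.1 h4
  refine key S.N x R ?_ hx hR hne
  exact S.per_e x

/-- the set of periodic points -/
def per : Finset ι := univ.filter S.Per

/-- the set of strictly preperiodic points -/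
def non : Finset ι := univ.filter (fun x => ¬ S.Per x)

lemma mem_per {x : ι} : x ∈ S.per ↔ S.Per x := by simp [per]

lemma mem_non {x : ι} : x ∈ S.non ↔ ¬ S.Per x := by simp [non]

lemma card_split : Fintype.card ι = S.per.card + S.non.card := by
  unfold per non
  rw [Finset.card_filter_add_card_filter_not, Finset.card_univ]

lemma non_card_le_one (h : 5 ≤ S.per.card) : S.non.card ≤ 1 := by
  by_contra hcon
  push Not at hcon
  obtain ⟨x, hx, y, hy, hxy⟩ := Finset.one_lt_card.1 hcon
  rw [mem_non] at hx hy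
  have h1 : (S.per \ {S.e x, S.e y}).card ≤ 2 := by
    apply S.card_eqdist' hxy
    intro R hR
    simp only [mem_sdiff, mem_per, mem_insert, mem_singleton, not_or] at hR
    rw [S.D_comm R x, S.D_comm R y, S.shadow hx hR.1 hR.2.1, S.shadow hy hR.1 hR.2.2]
  have h2 := Finset.le_card_sdiff {S.e x, S.e y} S.per
  have h3 : ({S.e x, S.e y} : Finset ι).card ≤ 2 := Finset.card_le_two
  omega

lemma non_card_le_six (h : 3 ≤ S.per.card) : S.non.card ≤ 6 := by
  obtain ⟨T, hT, hT3⟩ := Finset.exists_subset_card_eq h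
  obtain ⟨A, B, C, hAB, hAC, hBC, rfl⟩ := Finset.card_eq_three.1 hT3
  have hA : S.Per A := S.mem_per.1 (hT (by simp))
  have hB : S.Per B := S.mem_per.1 (hT (by simp))
  have hC : S.Per C := S.mem_per.1 (hT (by simp))
  have hsub : S.non ⊆ (univ.filter (fun y => S.D y A = S.D y B)) ∪
      ((univ.filter (fun y => S.D y A = S.D y C)) ∪
        (univ.filter (fun y => S.D y B = S.D y C))) := by
    intro x hx
    rw [mem_non] at hx
    simp only [mem_union, mem_filter, mem_univ, true_and]
    by_cases h1 : A = S.e x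
    · right; right
      rw [S.shadow hx hB (fun h => hAB (h1.trans h.symm)),
        S.shadow hx hC (fun h => hAC (h1.trans h.symm))]
    · by_cases h2 : B = S.e x
      · right; left
        rw [S.shadow hx hA h1, S.shadow hx hC (fun h => hBC (h2.trans h.symm))]
      · left
        rw [S.shadow hx hA h1, S.shadow hx hB h2]
  calc _ ≤ _ := Finset.card_le_card hsub
    _ ≤ _ := Finset.card_union_le _ _
    _ ≤ 2 + (2 + 2) := by
      refine Nat.add_le_add (S.card_eqdist hAB) ((Finset.card_union_le _ _).trans ?_)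
      exact Nat.add_le_add (S.card_eqdist hAC) (S.card_eqdist hBC)

/-- the number of periodic points is at most `d + 1` -/
lemma per_card_le (h3 : 3 ≤ S.per.card) : S.per.card ≤ d + 1 := by
  obtain ⟨T, hT, hT3⟩ := Finset.exists_subset_card_eq h3
  obtain ⟨A, B, C, hAB, hAC, hBC, rfl⟩ := Finset.card_eq_three.1 hT3
  have hA : S.Per A := S.mem_per.1 (hT (by simp))
  have hB : S.Per B := S.mem_per.1 (hT (by simp))
  have hC : S.Per C := S.mem_per.1 (hT (by simp))
  set a := S.v A with ha
  set b := S.v B with hb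
  set c := S.v C with hc
  set a' := S.v (S.f A) with ha'
  set b' := S.v (S.f B) with hb'
  set c' := S.v (S.f C) with hc'
  have hfAB : S.f A ≠ S.f B := fun h => hAB (S.f_inj hA hB h)
  have hfAC : S.f A ≠ S.f C := fun h => hAC (S.f_inj hA hC h)
  have hfBC : S.f B ≠ S.f C := fun h => hBC (S.f_inj hB hC h)
  set l := dt c a * dt b' c' with hl
  set m := - (dt c b * dt a' c') with hm
  have hl0 : l ≠ 0 := mul_ne_zero (S.inj C A hAC.symm) (S.inj _ _ hfBC)
  have hm0 : m ≠ 0 := neg_ne_zero.2 (mul_ne_zero (S.inj C B hBC.symm) (S.inj _ _ hfAC))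
  refine S.hC (l * b.2 * a'.1 + m * a.2 * b'.1) (-(l * b.1 * a'.1 + m * a.1 * b'.1))
    (l * b.2 * a'.2 + m * a.2 * b'.2) (-(l * b.1 * a'.2 + m * a.1 * b'.2)) ?_ S.per ?_
  · have : (l * b.2 * a'.1 + m * a.2 * b'.1) * (-(l * b.1 * a'.2 + m * a.1 * b'.2)) -
      (-(l * b.1 * a'.1 + m * a.1 * b'.1)) * (l * b.2 * a'.2 + m * a.2 * b'.2) =
        - (l * m * dt a b * dt a' b') := by
      unfold dt; ring
    rw [this]
    exact neg_ne_zero.2 (mul_ne_zero (mul_ne_zero (mul_ne_zero hl0 hm0) (S.inj A B hAB))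
      (S.inj _ _ hfAB))
  · intro E hE
    rw [mem_per] at hE
    set x := S.v E with hx
    set x' := S.v (S.f E) with hx'
    have e1 : dt x' ((l * b.2 * a'.1 + m * a.2 * b'.1) * x.1 +
        (-(l * b.1 * a'.1 + m * a.1 * b'.1)) * x.2, (l * b.2 * a'.2 + m * a.2 * b'.2) * x.1 +
        (-(l * b.1 * a'.2 + m * a.1 * b'.2)) * x.2) =
        - (dt a c * dt b x * (dt a' x' * dt b' c')) + dt a x * dt b c * (dt a' c' * dt b' x') := by
      rw [hl, hm]; unfold dt; ring
    rw [e1]
    -- equal cross ratios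
    have habs : ∀ X Y : ι, S.Per X → S.Per Y →
        |dt (S.v (S.f X)) (S.v (S.f Y))| = |dt (S.v X) (S.v Y)| := by
      intro X Y hX hY
      have := S.D_f hX hY
      unfold D at this
      rw [Int.abs_eq_natAbs, Int.abs_eq_natAbs, this]
    have p1 : |dt a' b' * dt c' x'| = |dt a b * dt c x| := by
      rw [abs_mul, abs_mul, habs A B hA hB, habs C E hC hE]
    have p2 : |dt a' c' * dt b' x'| = |dt a c * dt b x| := by
      rw [abs_mul, abs_mul, habs A C hA hC, habs B E hB hE]
    have p3 : |dt a' x' * dt b' c'| = |dt a x * dt b c| := by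
      rw [abs_mul, abs_mul, habs A E hA hE, habs B C hB hC]
    have q1 := plucker a b c x
    have q2 := plucker a' b' c' x'
    have cr : ∀ u v w u' v' w' : ℤ, |u'| = |u| → |v'| = |v| → |w'| = |w| → u = v - w →
        u' = v' - w' → - (v * w') + w * v' = 0 := by
      intro u v w u' v' w' h1 h2 h3 h4 h5
      rcases abs_eq_abs.1 h1 with h1 | h1 <;> rcases abs_eq_abs.1 h2 with h2 | h2 <;>
        rcases abs_eq_abs.1 h3 with h3 | h3
      · rw [h2, h3]; ring
      · have : w = 0 := by omega
        rw [h3, this]; ring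
      · have : v = 0 := by omega
        rw [h2, this]; ring
      · have hu : v = w := by omega
        rw [h2, h3, hu]; ring
      · have hu : v = w := by omega
        rw [h2, h3, hu]; ring
      · have : v = 0 := by omega
        rw [h2, this]; ring
      · have : w = 0 := by omega
        rw [h3, this]; ring
      · rw [h2, h3]; ring
    exact cr _ _ _ _ _ _ p1 p2 p3 q1 q2

end Sys

end Pool.Agent.TH856.GR
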