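import Mathlib

set_option autoImplicit false

/-!
# Binary integral forms and their primitive zeros
-/

namespace Pool.Agent.TH856.GR

open MvPolynomial

/-- the determinant of two integral vectors -/
def dt (a b : ℤ × ℤ) : ℤ := a.1 * b.2 - a.2 * b.1

/-- value of a binary form at an integral vector -/
noncomputable def ev (F : MvPolynomial (Fin 2) ℤ) (v : ℤ × ℤ) : ℤ :=
  MvPolynomial.eval ![v.1, v.2] F

/-- the linear form vanishing at `a`; its value at `v` is `dt v a` -/
noncomputable def lin (a : ℤ × ℤ) : MvPolynomial (Fin 2) ℤ := C a.2 * X 0 - C a.1 * X 1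

lemma ev_lin (a v : ℤ × ℤ) : ev (lin a) v = dt v a := by
  simp [ev, lin, dt]; ring

lemma ev_mul (F G : MvPolynomial (Fin 2) ℤ) (v : ℤ × ℤ) : ev (F * G) v = ev F v * ev G v := by
  simp [ev]

lemma ev_sub (F G : MvPolynomial (Fin 2) ℤ) (v : ℤ × ℤ) : ev (F - G) v = ev F v - ev G v := by
  simp [ev]

lemma ev_C (c : ℤ) (v : ℤ × ℤ) : ev (C c) v = c := by
  simp [ev]

lemma ev_prod {ι : Type*} (s : Finset ι) (F : ι → MvPolynomial (Fin 2) ℤ) (v : ℤ × ℤ) :
    ev (∏ i ∈ s, F i) v = ∏ i ∈ s, ev (F i) v := by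
  simp [ev, map_prod]

lemma lin_hom (a : ℤ × ℤ) : (lin a).IsHomogeneous 1 := by
  unfold lin
  refine MvPolynomial.IsHomogeneous.sub ?_ ?_
  · simpa using (MvPolynomial.isHomogeneous_C (Fin 2) a.2).mul
      (MvPolynomial.isHomogeneous_X ℤ (0 : Fin 2))
  · simpa using (MvPolynomial.isHomogeneous_C (Fin 2) a.1).mul
      (MvPolynomial.isHomogeneous_X ℤ (1 : Fin 2))

/-- restriction of a polynomial to the line through `a` -/
noncomputable def psi (a : ℤ × ℤ) : MvPolynomial (Fin 2) ℤ →ₐ[ℤ] Polynomial ℤ :=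
  MvPolynomial.aeval ![Polynomial.C a.1 * Polynomial.X, Polynomial.C a.2 * Polynomial.X]

lemma psi_lin (a b : ℤ × ℤ) : psi a (lin b) = Polynomial.C (dt a b) * Polynomial.X := by
  simp [psi, lin, dt]
  ring

/-- for homogeneous `F` the restriction is a monomial -/
lemma psi_hom {F : MvPolynomial (Fin 2) ℤ} {n : ℕ} (hF : F.IsHomogeneous n) (a : ℤ × ℤ) :
    psi a F = Polynomial.C (ev F a) * Polynomial.X ^ n := by
  rw [psi, ev, MvPolynomial.aeval_def, MvPolynomial.eval₂_eq', MvPolynomial.eval_eq', map_sum,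
    Finset.sum_mul]
  apply Finset.sum_congr rfl
  intro m hm
  have hd' : m 0 + m 1 = n := by
    by_contra hne
    have := hF.coeff_eq_zero (d := m) (by
      rw [Finsupp.degree_eq_sum]; simpa using hne)
    exact (MvPolynomial.mem_support_iff.1 hm) this
  simp only [Fin.prod_univ_two, Matrix.cons_val_zero, Matrix.cons_val_one, mul_pow, map_mul,
    map_pow, ← hd', pow_add]
  simp
  ring

/-- a polynomial whose restriction to the line through the primitive vector `a` vanishes is
divisible by the linear form of `a` -/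
lemma lin_dvd {a : ℤ × ℤ} (ha : IsCoprime a.1 a.2) {F : MvPolynomial (Fin 2) ℤ}
    (h : psi a F = 0) : lin a ∣ F := by
  obtain ⟨u, w, huw⟩ := ha
  rw [← Ideal.mem_span_singleton, ← Ideal.Quotient.eq_zero_iff_mem]
  set q := Ideal.Quotient.mk (Ideal.span {lin a}) with hq
  -- `m = u X + w Y`
  set m : MvPolynomial (Fin 2) ℤ := C u * X 0 + C w * X 1 with hm
  have hl : q (lin a) = 0 := by
    rw [hq, Ideal.Quotient.eq_zero_iff_mem]; exact Ideal.mem_span_singleton_self _
  have e0 : X 0 = C a.1 * m + C w * lin a := by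
    have : (C u * C a.1 + C w * C a.2 : MvPolynomial (Fin 2) ℤ) = 1 := by
      rw [← C_mul, ← C_mul, ← C_add, huw, C_1]
    rw [hm, lin]
    linear_combination (-(X 0 : MvPolynomial (Fin 2) ℤ)) * this
  have e1 : X 1 = C a.2 * m - C u * lin a := by
    have : (C u * C a.1 + C w * C a.2 : MvPolynomial (Fin 2) ℤ) = 1 := by
      rw [← C_mul, ← C_mul, ← C_add, huw, C_1]
    rw [hm, lin]
    linear_combination (-(X 1 : MvPolynomial (Fin 2) ℤ)) * this
  -- the ring hom `Z[T] → quotient`, `T ↦ m`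
  let g : Polynomial ℤ →+* (MvPolynomial (Fin 2) ℤ ⧸ Ideal.span {lin a}) :=
    Polynomial.eval₂RingHom (q.comp C) (q m)
  have hcomp : g.comp (psi a : MvPolynomial (Fin 2) ℤ →+* Polynomial ℤ) = q := by
    apply MvPolynomial.ringHom_ext
    · intro r
      simp [g, psi]
    · intro i
      have h0 : q (X 0) = q (C a.1) * q m := by
        rw [← map_mul, ← sub_eq_zero, ← map_sub, show (X 0 : MvPolynomial (Fin 2) ℤ) - C a.1 * m
          = C w * lin a by linear_combination e0, map_mul, hl, mul_zero]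
      have h1 : q (X 1) = q (C a.2) * q m := by
        rw [← map_mul, ← sub_eq_zero, ← map_sub, show (X 1 : MvPolynomial (Fin 2) ℤ) - C a.2 * m
          = - (C u * lin a) by linear_combination e1, map_neg, map_mul, hl, mul_zero, neg_zero]
      fin_cases i
      · simp only [Fin.zero_eta, RingHom.comp_apply, RingHom.coe_coe, psi, aeval_X,
          Matrix.cons_val_zero, g, Polynomial.coe_eval₂RingHom, Polynomial.eval₂_mul,
          Polynomial.eval₂_C, Polynomial.eval₂_X]
        exact h0.symm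
      · have : g ((psi a) (X 1)) = g (Polynomial.C a.2 * Polynomial.X) := by
          congr 1
          simp [psi]
        simp only [Fin.mk_one, RingHom.comp_apply, RingHom.coe_coe]
        rw [this]
        simp only [g, Polynomial.coe_eval₂RingHom, Polynomial.eval₂_mul,
          Polynomial.eval₂_C, Polynomial.eval₂_X, RingHom.comp_apply]
        exact h1.symm
  have := congrArg (fun φ => φ F) hcomp
  simp only [RingHom.comp_apply, RingHom.coe_coe] at this
  rw [← this, h, map_zero]

/-- the product of the linear forms of pairwise non-parallel primitive zeros divides -/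
lemma prod_lin_dvd {ι : Type*} [DecidableEq ι] (s : Finset ι) (v : ι → ℤ × ℤ)
    (hc : ∀ i ∈ s, IsCoprime (v i).1 (v i).2)
    (hne : ∀ i ∈ s, ∀ j ∈ s, i ≠ j → dt (v i) (v j) ≠ 0) {F : MvPolynomial (Fin 2) ℤ}
    (h : ∀ i ∈ s, psi (v i) F = 0) : (∏ i ∈ s, lin (v i)) ∣ F := by
  classical
  induction s using Finset.induction_on generalizing F with
  | empty => simp
  | insert a s ha ih =>
    obtain ⟨F', hF'⟩ := lin_dvd (hc a (Finset.mem_insert_self _ _))
      (h a (Finset.mem_insert_self _ _))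
    have h' : ∀ i ∈ s, psi (v i) F' = 0 := by
      intro i hi
      have hi' := h i (Finset.mem_insert_of_mem hi)
      rw [hF', map_mul, psi_lin] at hi'
      rcases mul_eq_zero.1 hi' with h0 | h0
      · exfalso
        rcases mul_eq_zero.1 h0 with h1 | h1
        · rw [Polynomial.C_eq_zero] at h1
          exact hne i (Finset.mem_insert_of_mem hi) a (Finset.mem_insert_self _ _)
            (fun e => ha (e ▸ hi)) h1
        · exact Polynomial.X_ne_zero h1
      · exact h0
    have := ih (fun i hi => hc i (Finset.mem_insert_of_mem hi))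
      (fun i hi j hj => hne i (Finset.mem_insert_of_mem hi) j (Finset.mem_insert_of_mem hj)) h'
    rw [Finset.prod_insert ha, hF']
    exact mul_dvd_mul_left _ this

/-- a nonzero form of degree `n` has at most `n` primitive zeros -/
lemma card_zeros_le {ι : Type*} [DecidableEq ι] (s : Finset ι) (v : ι → ℤ × ℤ)
    (hc : ∀ i ∈ s, IsCoprime (v i).1 (v i).2)
    (hne : ∀ i ∈ s, ∀ j ∈ s, i ≠ j → dt (v i) (v j) ≠ 0) {F : MvPolynomial (Fin 2) ℤ} {n : ℕ}
    (hF : F.IsHomogeneous n) (hF0 : F ≠ 0) (h : ∀ i ∈ s, ev F (v i) = 0) : s.card ≤ n := by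
  obtain ⟨G, hG⟩ := prod_lin_dvd s v hc hne (F := F) (fun i hi => by
    rw [psi_hom hF, h i hi, map_zero, zero_mul])
  have hhom : (∏ i ∈ s, lin (v i)).IsHomogeneous s.card := by
    have := MvPolynomial.IsHomogeneous.prod s (fun i => lin (v i)) (fun _ => 1)
      (fun i _ => lin_hom _)
    simpa using this
  have hp0 : (∏ i ∈ s, lin (v i)) ≠ 0 := by
    rintro h0
    rw [h0, zero_mul] at hG
    exact hF0 hG
  have hG0 : G ≠ 0 := by
    rintro rfl
    rw [mul_zero] at hG
    exact hF0 hG
  have h1 := hF.totalDegree hF0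
  have h2 := hhom.totalDegree hp0
  have h3 : F.totalDegree = (∏ i ∈ s, lin (v i)).totalDegree + G.totalDegree := by
    rw [hG, MvPolynomial.totalDegree_mul_of_isDomain hp0 hG0]
  omega

/-- divisibility of the value by the product of the determinants -/
lemma prod_dt_dvd {ι : Type*} [DecidableEq ι] (s : Finset ι) (v : ι → ℤ × ℤ)
    (hc : ∀ i ∈ s, IsCoprime (v i).1 (v i).2)
    (hne : ∀ i ∈ s, ∀ j ∈ s, i ≠ j → dt (v i) (v j) ≠ 0) {F : MvPolynomial (Fin 2) ℤ} {n : ℕ}
    (hF : F.IsHomogeneous n) (h : ∀ i ∈ s, ev F (v i) = 0) (P : ℤ × ℤ) :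
    (∏ i ∈ s, dt P (v i)) ∣ ev F P := by
  obtain ⟨G, hG⟩ := prod_lin_dvd s v hc hne (F := F) (fun i hi => by
    rw [psi_hom hF, h i hi, map_zero, zero_mul])
  rw [hG, ev_mul, ev_prod]
  simp only [ev_lin]
  exact dvd_mul_right _ _

/-- restriction to an affine line -/
noncomputable def lineP (K : MvPolynomial (Fin 2) ℤ) (v w : ℤ × ℤ) : Polynomial ℤ :=
  MvPolynomial.aeval ![Polynomial.C v.1 + Polynomial.C w.1 * Polynomial.X,
    Polynomial.C v.2 + Polynomial.C w.2 * Polynomial.X] K

lemma eval_lineP (K : MvPolynomial (Fin 2) ℤ) (v w : ℤ × ℤ) (T : ℤ) :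
    (lineP K v w).eval T = ev K (v.1 + w.1 * T, v.2 + w.2 * T) := by
  unfold lineP ev
  rw [← Polynomial.coe_evalRingHom, ← RingHom.coe_coe (MvPolynomial.aeval _),
    ← RingHom.comp_apply]
  congr 1
  apply MvPolynomial.ringHom_ext
  · intro r
    simp
  · intro i
    fin_cases i <;> simp

lemma const_on_line {K : MvPolynomial (Fin 2) ℤ} {c : ℤ} (hc : c ≠ 0) (v w : ℤ × ℤ)
    {A : Set ℤ} (hA : A.Infinite)
    (h : ∀ T ∈ A, ev K (v.1 + w.1 * T, v.2 + w.2 * T) ∣ c) (T T' : ℤ) :
    ev K (v.1 + w.1 * T, v.2 + w.2 * T) = ev K (v.1 + w.1 * T', v.2 + w.2 * T') := by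
  classical
  have hfin : (↑(Int.natAbs c).divisors : Set ℕ).Finite := Finset.finite_toSet _
  by_contra hne
  apply hA
  -- values are among finitely many integers
  let D : Finset ℤ := (Finset.Icc (-|c|) |c|)
  have hsub : A ⊆ ⋃ δ ∈ D, {T | (lineP K v w).eval T = δ} := by
    intro S hS
    have h1 := h S hS
    rw [Set.mem_iUnion₂]
    refine ⟨ev K (v.1 + w.1 * S, v.2 + w.2 * S), ?_, by simp [eval_lineP]⟩
    have h2 : |ev K (v.1 + w.1 * S, v.2 + w.2 * S)| ≤ |c| :=
      Int.le_of_dvd (abs_pos.2 hc) ((abs_dvd_abs _ _).2 h1)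
    rw [abs_le] at h2
    exact Finset.mem_Icc.2 h2
  refine Set.Finite.subset (Set.Finite.biUnion (Finset.finite_toSet D) ?_) hsub
  intro δ _
  by_contra hinf
  have hinf' : Set.Infinite {x | (lineP K v w).eval x = (Polynomial.C δ).eval x} := by
    simpa using hinf
  have := Polynomial.eq_of_infinite_eval_eq _ _ hinf'
  apply hne
  rw [← eval_lineP, ← eval_lineP, this]
  simp

/-- a polynomial all of whose values at primitive vectors divide `c ≠ 0` takes the same value at
`v` and at `2 v` -/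
lemma ev_two {K : MvPolynomial (Fin 2) ℤ} {c : ℤ} (hc : c ≠ 0)
    (h : ∀ x y : ℤ, IsCoprime x y → ev K (x, y) ∣ c) {v : ℤ × ℤ} (hv : IsCoprime v.1 v.2) :
    ev K (2 * v.1, 2 * v.2) = ev K v := by
  obtain ⟨a, b, hab⟩ := hv
  -- `u = (b, -a)`: `b v.2 + a v.1 = 1`
  have h1 := const_on_line (K := K) hc v (b + v.1, - a + v.2) (A := Set.univ) Set.infinite_univ
    (by
      intro T _
      apply h
      refine ⟨a - v.2, b + v.1, ?_⟩
      linear_combination (1 : ℤ) * hab) 0 1
  have h2 := const_on_line (K := K) hc (2 * v.1, 2 * v.2) (b, - a)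
    (A := Set.range (fun n : ℤ => 2 * n + 1))
    (Set.infinite_range_of_injective (fun x y hxy => by simpa using hxy))
    (by
      rintro T ⟨n, rfl⟩
      apply h
      refine ⟨- n * a + v.2, - n * b - v.1, ?_⟩
      dsimp only
      linear_combination (1 : ℤ) * hab) 0 1
  simp only [mul_zero, add_zero, mul_one] at h1 h2
  rw [h2]
  have e : (2 * v.1 + b, 2 * v.2 + -a) = (v.1 + (b + v.1), v.2 + (-a + v.2)) := by
    ext <;> simp <;> ring
  rw [e, ← h1]

/-- a primitive vector parallel to a primitive vector is equal to it up to sign -/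
lemma eq_or_neg_of_dt {a b : ℤ × ℤ} (ha : IsCoprime a.1 a.2) (hb : IsCoprime b.1 b.2)
    (h : dt a b = 0) : a = b ∨ a = -b := by
  obtain ⟨p, q, hpq⟩ := ha
  obtain ⟨r, s, hrs⟩ := hb
  unfold dt at h
  -- `a = λ b`, `λ = r a.1 + s a.2`
  have e1 : a.1 = (r * a.1 + s * a.2) * b.1 := by linear_combination (-a.1) * hrs + s * h
  have e2 : a.2 = (r * a.1 + s * a.2) * b.2 := by linear_combination (-a.2) * hrs - r * h
  have hu : (r * a.1 + s * a.2) * (p * b.1 + q * b.2) = 1 := by
    linear_combination hpq - p * e1 - q * e2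
  rcases Int.isUnit_iff.1 (IsUnit.of_mul_eq_one _ hu) with h1 | h1
  · left
    rw [h1] at e1 e2
    ext <;> simp [e1, e2]
  · right
    rw [h1] at e1 e2
    ext
    · rw [e1]; simp
    · rw [e2]; simp

/-- `F`, `G` take coprime values at coprime arguments -/
def CoprimePreserving (F G : MvPolynomial (Fin 2) ℤ) : Prop :=
  ∀ x y : ℤ, IsCoprime x y → IsCoprime (ev F (x, y)) (ev G (x, y))

lemma ev_smul {F : MvPolynomial (Fin 2) ℤ} {n : ℕ} (hF : F.IsHomogeneous n) (c : ℤ)
    (v : ℤ × ℤ) : ev F (c * v.1, c * v.2) = c ^ n * ev F v := by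
  unfold ev
  rw [MvPolynomial.eval_eq', MvPolynomial.eval_eq', Finset.mul_sum]
  apply Finset.sum_congr rfl
  intro m hm
  have hd' : m 0 + m 1 = n := by
    by_contra hne
    have := hF.coeff_eq_zero (d := m) (by
      rw [Finsupp.degree_eq_sum]; simpa using hne)
    exact (MvPolynomial.mem_support_iff.1 hm) this
  simp only [Fin.prod_univ_two, Matrix.cons_val_zero, Matrix.cons_val_one, mul_pow, ← hd', pow_add]
  ring

section
variable {d : ℕ} {F G : MvPolynomial (Fin 2) ℤ}

/-- fibres are proper -/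
lemma fibre_ne_zero (hd : 1 ≤ d) (hF : F.IsHomogeneous d) (hG : G.IsHomogeneous d)
    (hc : CoprimePreserving F G) {q : ℤ × ℤ} (hq : IsCoprime q.1 q.2) :
    C q.2 * F - C q.1 * G ≠ 0 := by
  intro h0
  have key : ∀ x y : ℤ, IsCoprime x y → (ev F (x, y) ∣ q.1 ∧ ev G (x, y) ∣ q.2) := by
    intro x y hxy
    have h1 : dt (ev F (x, y), ev G (x, y)) q = 0 := by
      have := congrArg (fun P => ev P (x, y)) h0
      simp only [ev_sub, ev_mul, ev_C] at this
      unfold dt
      have e0 : ev 0 (x, y) = 0 := by simp [ev]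
      rw [e0] at this
      dsimp only
      linarith
    rcases eq_or_neg_of_dt (hc x y hxy) hq h1 with h2 | h2
    · rw [← h2]; simp
    · have e1 : ev F (x, y) = - q.1 := congrArg Prod.fst h2
      have e2 : ev G (x, y) = - q.2 := congrArg Prod.snd h2
      rw [e1, e2]; simp
  have h2d : (2:ℤ) ^ d ≠ 1 := by
    have : (2:ℤ) ^ 1 ≤ 2 ^ d := pow_le_pow_right₀ (by norm_num) hd
    intro h
    omega
  have gen : ∀ (K : MvPolynomial (Fin 2) ℤ) (c : ℤ), K.IsHomogeneous d → c ≠ 0 →
      (∀ x y : ℤ, IsCoprime x y → ev K (x, y) ∣ c) → False := by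
    intro K c hK hc0 hdiv
    have h1 := ev_two hc0 hdiv (v := (1, 0)) isCoprime_one_left
    rw [ev_smul hK] at h1
    have h3 := hdiv 1 0 isCoprime_one_left
    have h4 : ev K (1, 0) = 0 := by
      by_contra h5
      exact h2d (mul_right_cancel₀ h5 (by rw [h1, one_mul]))
    rw [h4, zero_dvd_iff] at h3
    exact hc0 h3
  by_cases hq1 : q.1 = 0
  · have hq2 : q.2 ≠ 0 := by
      intro h
      rw [hq1, h] at hq
      exact not_isCoprime_zero_zero hq
    exact gen G q.2 hG hq2 (fun x y h => (key x y h).2)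
  · exact gen F q.1 hF hq1 (fun x y h => (key x y h).1)

/-- a homogeneous linear form is a multiple of `lin` of a primitive vector -/
lemma exists_lin {a b : ℤ} (h : ¬ (a = 0 ∧ b = 0)) : ∃ (g : ℤ) (v : ℤ × ℤ), g ≠ 0 ∧
    IsCoprime v.1 v.2 ∧ (C a * X 0 + C b * X 1 : MvPolynomial (Fin 2) ℤ) = C g * lin v ∧
    a = g * v.2 ∧ b = - g * v.1 := by
  have hg : (Int.gcd a b) ≠ 0 := by
    rw [Ne, Int.gcd_eq_zero_iff]; exact h
  obtain ⟨g, a', b', hg0, hco, ha, hb⟩ := Int.exists_gcd_one' (Nat.pos_of_ne_zero hg)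
  have ha' : a = (g:ℤ) * a' := by rw [ha]; ring
  have hb' : b = -(g:ℤ) * (- b') := by rw [hb]; ring
  refine ⟨g, (- b', a'), by exact_mod_cast hg0.ne', ?_, ?_, ha', hb'⟩
  · have := Int.isCoprime_iff_gcd_eq_one.2 hco
    exact this.symm.neg_left
  · rw [ha', hb']
    simp only [lin, map_mul, map_neg]
    ring

/-- agreement with a Möbius map is a proper condition -/
lemma moebius_ne_zero (hd : 2 ≤ d) (hF : F.IsHomogeneous d)
    (hc : CoprimePreserving F G) {α β γ δ : ℤ} (hΔ : α * δ - β * γ ≠ 0) :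
    F * (C γ * X 0 + C δ * X 1) - G * (C α * X 0 + C β * X 1) ≠ 0 := by
  intro h0
  obtain ⟨g, v, hg, hv, hl, hγ, hδ⟩ := exists_lin (a := γ) (b := δ) (by
    rintro ⟨rfl, rfl⟩; simp at hΔ)
  obtain ⟨g', v', hg', hv', hl', hα, hβ⟩ := exists_lin (a := α) (b := β) (by
    rintro ⟨rfl, rfl⟩; simp at hΔ)
  rw [hl, hl'] at h0
  have hne : dt v v' ≠ 0 := by
    intro h
    apply hΔ
    rw [hα, hβ, hγ, hδ]
    unfold dt at h
    linear_combination (-(g * g')) * h
  have hne' : dt v' v ≠ 0 := by
    intro h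
    apply hne
    unfold dt at h ⊢
    linarith
  have hlin0 : ∀ a : ℤ × ℤ, IsCoprime a.1 a.2 → lin a ≠ 0 := by
    intro a ha h
    obtain ⟨p, q, hpq⟩ := ha
    have := ev_lin a (q, -p)
    rw [h] at this
    unfold dt at this
    have e0 : ev 0 (q, -p) = 0 := by simp [ev]
    rw [e0] at this
    dsimp only at this
    linarith
  -- `lin v ∣ G`, `lin v' ∣ F`
  have hGv : psi v G = 0 := by
    have := congrArg (psi v) h0
    rw [map_sub, map_mul, map_mul, map_mul, map_mul, psi_lin, psi_lin, map_zero] at this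
    have hvv : dt v v = 0 := by unfold dt; ring
    rw [hvv] at this
    simp only [map_zero, zero_mul, mul_zero, zero_sub, neg_eq_zero] at this
    rcases mul_eq_zero.1 this with h | h
    · exact h
    · exfalso
      rcases mul_eq_zero.1 h with h | h
      · have : psi v (C g') = Polynomial.C g' := by simp [psi]
        rw [this, Polynomial.C_eq_zero] at h
        exact hg' h
      · rcases mul_eq_zero.1 h with h | h
        · rw [Polynomial.C_eq_zero] at h
          exact hne h
        · exact Polynomial.X_ne_zero h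
  have hFv : psi v' F = 0 := by
    have := congrArg (psi v') h0
    rw [map_sub, map_mul, map_mul, map_mul, map_mul, psi_lin, psi_lin, map_zero] at this
    have hvv : dt v' v' = 0 := by unfold dt; ring
    rw [hvv] at this
    simp only [map_zero, zero_mul, mul_zero, sub_zero] at this
    rcases mul_eq_zero.1 this with h | h
    · exact h
    · exfalso
      rcases mul_eq_zero.1 h with h | h
      · have : psi v' (C g) = Polynomial.C g := by simp [psi]
        rw [this, Polynomial.C_eq_zero] at h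
        exact hg h
      · rcases mul_eq_zero.1 h with h | h
        · rw [Polynomial.C_eq_zero] at h
          exact hne' h
        · exact Polynomial.X_ne_zero h
  obtain ⟨G', hG'⟩ := lin_dvd hv hGv
  obtain ⟨F', hF'⟩ := lin_dvd hv' hFv
  have hfg : C g * F' = C g' * G' := by
    have h1 : (lin v * lin v') * (C g * F' - C g' * G') = 0 := by
      rw [hF', hG'] at h0
      linear_combination h0
    rcases mul_eq_zero.1 h1 with h | h
    · rcases mul_eq_zero.1 h with h | h
      · exact absurd h (hlin0 v hv)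
      · exact absurd h (hlin0 v' hv')
    · exact sub_eq_zero.1 h
  -- the values of `F'` divide `g'`
  have hdiv : ∀ x y : ℤ, IsCoprime x y → ev F' (x, y) ∣ g' := by
    intro x y hxy
    have h1 := hc x y hxy
    rw [hF', hG', ev_mul, ev_mul] at h1
    have h2 : IsCoprime (ev F' (x, y)) (ev G' (x, y)) :=
      (h1.of_mul_left_right).of_mul_right_right
    have h3 : g * ev F' (x, y) = g' * ev G' (x, y) := by
      have := congrArg (fun P => ev P (x, y)) hfg
      simpa only [ev_mul, ev_C] using this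
    exact h2.dvd_of_dvd_mul_right (by rw [← h3]; exact dvd_mul_left _ _)
  -- contradiction at a primitive vector complementary to `v'`
  obtain ⟨p, q, hpq⟩ := hv'
  have hw : IsCoprime q (-p) := ⟨v'.2, -v'.1, by linear_combination hpq⟩
  have h1 := ev_two hg' hdiv (v := (q, -p)) hw
  have h2 := ev_smul hF 2 (q, -p)
  rw [hF', ev_mul, ev_mul, ev_lin, ev_lin, h1] at h2
  have h3 : ev F' (q, -p) ∣ g' := hdiv _ _ hw
  have h4 : ev F' (q, -p) ≠ 0 := by
    intro h
    rw [h, zero_dvd_iff] at h3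
    exact hg' h3
  have h5 : dt (2 * (q, -p).1, 2 * (q, -p).2) v' = 2 := by
    unfold dt; dsimp only; linear_combination 2 * hpq
  have h6 : dt (q, -p) v' = 1 := by
    unfold dt; dsimp only; linear_combination hpq
  rw [h5, h6, one_mul] at h2
  have h7 : (2:ℤ) = 2 ^ d := mul_right_cancel₀ h4 h2
  have h8 : (2:ℤ) ^ 2 ≤ 2 ^ d := pow_le_pow_right₀ (by norm_num) hd
  omega

end

end Pool.Agent.TH856.GR
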