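import Pool.Agent.TH856.GR.Basin

set_option autoImplicit false

/-!
# Two periodic points
-/

namespace Pool.Agent.TH856.GR

open Finset Function

namespace Sys

variable {ι : Type} [Fintype ι] [DecidableEq ι] {d : ℕ} (S : Sys ι d)

lemma sq_of_D_one {x R : ι} (h : S.D x R = 1) : dt (S.v x) (S.v R) * dt (S.v x) (S.v R) = 1 := by
  unfold D at h
  rcases Int.natAbs_eq_iff.1 h with h | h <;> rw [h] <;> norm_num

/-- divisibility of the product over the fibre of `R1` at a point of the fibre of `R2` -/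
lemma prod_L_dvd_m {R1 R2 x : ι} (h1 : S.Per R1) (h2 : S.Per R2) (hne : R1 ≠ R2)
    (hx : x ∈ S.L R2) : ∏ z ∈ S.L R1, S.D x z ∣ S.D R1 R2 := by
  have hfx := (S.mem_L.1 hx).2
  have h3 : S.f R1 ≠ S.f x := by
    rw [hfx]
    intro h
    exact hne (S.f_inj h1 h2 h)
  have := S.prod_L_dvd h3 h1
  rw [hfx, S.D_f h2 h1, S.D_comm R2 R1] at this
  exact (dvd_mul_left _ _).trans this

/-- if the fibre of `R1` contains two strictly preperiodic points, that of `R2` contains at most
four -/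
lemma card_L_le_four {R1 R2 : ι} (h1 : S.Per R1) (h2 : S.Per R2) (hne : R1 ≠ R2)
    (h : 2 ≤ (S.L R1).card) : (S.L R2).card ≤ 4 := by
  obtain ⟨P1, hP1, P2, hP2, hP⟩ := Finset.one_lt_card.1 h
  have hm : 0 < S.D R1 R2 := S.D_pos hne
  have hdist : ∀ x ∈ S.L R2, S.D x P1 * S.D x P2 ∣ S.D R1 R2 := by
    intro x hx
    refine Dvd.dvd.trans ?_ (S.prod_L_dvd_m h1 h2 hne hx)
    have := Finset.prod_dvd_prod_of_subset {P1, P2} (S.L R1) (fun z => S.D x z) (by
      intro z hz
      rcases Finset.mem_insert.1 hz with rfl | hz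
      · exact hP1
      · rw [Finset.mem_singleton.1 hz]; exact hP2)
    rwa [Finset.prod_pair hP] at this
  rcases Nat.lt_or_ge 1 (S.D R1 R2) with hm1 | hm1
  · -- `m ≥ 2`
    have hbd : ∀ x ∈ S.L R2, S.D x R2 ≤ S.D R1 R2 + 1 := by
      intro x hx
      have hx1 : 0 < S.D x P1 := S.D_pos (by
        rintro rfl
        have e1 := S.e_of_L h1 hP1
        have e2 := S.e_of_L h2 hx
        exact hne (e1.symm.trans e2))
      have hx2 : 0 < S.D x P2 := S.D_pos (by
        rintro rfl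
        have e1 := S.e_of_L h1 hP2
        have e2 := S.e_of_L h2 hx
        exact hne (e1.symm.trans e2))
      have hpt := S.ptolemy x R2 P1 P2
      rw [S.D_comm R2 P2, S.D_comm R2 P1, S.D_one_L h1 h2 hne.symm hP1,
        S.D_one_L h1 h2 hne.symm hP2] at hpt
      have h12 : 0 < S.D P1 P2 := S.D_pos hP
      have h4 := Nat.le_of_dvd hm (hdist x hx)
      nlinarith
    -- the normalised coordinate
    let X : ι → ℤ := fun x => dt (S.v x) (S.v R1) * dt (S.v x) (S.v R2)
    have hXdiff : ∀ x ∈ S.L R2, ∀ z ∈ S.L R2, X z - X x =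
        dt (S.v x) (S.v R1) * dt (S.v z) (S.v R1) * (dt (S.v x) (S.v z)) *
          dt (S.v R1) (S.v R2) := by
      intro x hx z hz
      have s1 := S.sq_of_D_one (S.D_one_L h2 h1 hne hx)
      have s2 := S.sq_of_D_one (S.D_one_L h2 h1 hne hz)
      have p := plucker (S.v x) (S.v z) (S.v R1) (S.v R2)
      simp only [X]
      rw [mul_assoc _ (dt (S.v x) (S.v z)), p]
      linear_combination (-(dt (S.v z) (S.v R1)) * dt (S.v z) (S.v R2)) * s1 +
        (dt (S.v x) (S.v R1) * dt (S.v x) (S.v R2)) * s2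
    have hXabs : ∀ x ∈ S.L R2, |X x| ≤ S.D R1 R2 + 1 := by
      intro x hx
      have s1 := S.D_one_L h2 h1 hne hx
      simp only [X, abs_mul]
      have e1 : |dt (S.v x) (S.v R1)| = 1 := by
        rw [Int.abs_eq_natAbs]; exact_mod_cast s1
      have e2 : |dt (S.v x) (S.v R2)| = (S.D x R2 : ℤ) := by
        rw [Int.abs_eq_natAbs]; rfl
      rw [e1, e2, one_mul]
      exact_mod_cast hbd x hx
    set m : ℤ := (S.D R1 R2 : ℤ) with hmdef
    have hm2 : 2 ≤ m := by rw [hmdef]; exact_mod_cast hm1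
    have hcard : (S.L R2).card ≤ (Finset.Icc (0:ℤ) 3).card := by
      apply Finset.card_le_card_of_injOn (fun x => (X x + m + 1) / m)
      · intro x hx
        have hx' := abs_le.1 (hXabs x (Finset.mem_coe.1 hx))
        rw [Finset.coe_Icc, Set.mem_Icc]
        constructor
        · apply Int.ediv_nonneg <;> omega
        · have : (X x + m + 1) / m < 4 := by
            apply Int.ediv_lt_of_lt_mul (by omega)
            omega
          show (X x + m + 1) / m ≤ 3
          omega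
      · intro x hx z hz hxz
        have hx := Finset.mem_coe.1 hx
        have hz := Finset.mem_coe.1 hz
        dsimp only at hxz
        by_contra hne'
        have hd := hXdiff x hx z hz
        have hdm : m ∣ X z - X x := by
          have : dt (S.v R1) (S.v R2) ∣ X z - X x := by
            rw [hd]; exact dvd_mul_left _ _
          rw [hmdef]
          unfold D
          rwa [Int.natAbs_dvd]
        have hne0 : X z - X x ≠ 0 := by
          rw [hd]
          refine mul_ne_zero (mul_ne_zero (mul_ne_zero ?_ ?_) (S.inj x z hne')) (S.inj _ _ hne)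
          · intro h0
            have := S.D_one_L h2 h1 hne hx
            unfold D at this
            rw [h0] at this
            simp at this
          · intro h0
            have := S.D_one_L h2 h1 hne hz
            unfold D at this
            rw [h0] at this
            simp at this
        have q1 := Int.emod_add_mul_ediv (X x + m + 1) m
        have q2 := Int.emod_add_mul_ediv (X z + m + 1) m
        have r1 := Int.emod_nonneg (X x + m + 1) (show m ≠ 0 by omega)
        have r2 := Int.emod_nonneg (X z + m + 1) (show m ≠ 0 by omega)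
        have r3 := Int.emod_lt_of_pos (X x + m + 1) (show 0 < m by omega)
        have r4 := Int.emod_lt_of_pos (X z + m + 1) (show 0 < m by omega)
        rw [hxz] at q1
        have : |X z - X x| < m := by
          rw [abs_lt]; constructor <;> omega
        exact hne0 (Int.eq_zero_of_abs_lt_dvd hdm this)
    simpa using hcard
  · -- `m = 1`
    have hm0 : S.D R1 R2 = 1 := by omega
    have := S.card_eqdist' hP (T := S.L R2) (by
      intro x hx
      have h4 := hdist x hx
      rw [hm0, Nat.dvd_one] at h4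
      have e1 : S.D x P1 = 1 := Nat.dvd_one.1 ⟨_, h4.symm⟩
      rw [e1, one_mul] at h4
      rw [e1, h4])
    omega

/-- many points of the fibre of `R1` are not at distance one from `u` -/
lemma pow_le_prod {R1 R2 u : ι} (h1 : S.Per R1) (h2 : S.Per R2) (hne : R1 ≠ R2)
    (hu : u ≠ R2) {T : Finset ι} (hT : T ⊆ S.L R1) (huT : u ∉ T) {k : ℕ} (hk : k + 2 ≤ T.card) :
    2 ^ k ≤ ∏ x ∈ T, S.D u x := by
  have hT1 : (T.filter (fun x => S.D u x = 1)).card ≤ 2 := by
    apply S.card_eqdist' hu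
    intro x hx
    rw [Finset.mem_filter] at hx
    rw [S.D_comm x u, hx.2, S.D_one_L h1 h2 hne.symm (hT hx.1)]
  have hpos : ∀ x ∈ T, 0 < S.D u x := fun x hx => S.D_pos (fun e => huT (e ▸ hx))
  have h3 : 2 ^ (T.filter (fun x => ¬ S.D u x = 1)).card ≤
      ∏ x ∈ T.filter (fun x => ¬ S.D u x = 1), S.D u x := by
    apply Finset.pow_card_le_prod
    intro x hx
    rw [Finset.mem_filter] at hx
    have := hpos x hx.1
    have := hx.2
    omega
  have h4 : ∏ x ∈ T.filter (fun x => ¬ S.D u x = 1), S.D u x ≤ ∏ x ∈ T, S.D u x := by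
    apply Finset.prod_le_prod_of_subset_of_one_le' (Finset.filter_subset _ _)
    intro x hx _
    exact hpos x hx
  have h5 := Finset.card_filter_add_card_filter_not (s := T) (fun x => S.D u x = 1)
  calc 2 ^ k ≤ 2 ^ (T.filter (fun x => ¬ S.D u x = 1)).card :=
        Nat.pow_le_pow_right (by norm_num) (by omega)
    _ ≤ _ := h3
    _ ≤ _ := h4

/-- `m ≤ 1 + D(x',R2) D(y,R1)` -/
lemma m_le {R1 R2 x y : ι} (h1 : S.Per R1) (h2 : S.Per R2) (hne : R1 ≠ R2)
    (hx : x ∈ S.L R2) (hy : y ∈ S.Y R1) :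
    S.D R1 R2 ≤ 1 + S.D y R1 * S.D x R2 := by
  have hpt := S.ptolemy R1 R2 x y
  have hxy : S.D x y = 1 := by
    rw [S.D_comm]
    exact S.cross h2 h1 hne.symm hy hx
  rw [hxy, mul_one, S.D_comm R1 x, S.D_comm R2 y, S.D_comm R1 y, S.D_comm R2 x,
    S.D_one_L h2 h1 hne hx, S.D_one_Y h2 hne.symm hy, mul_one] at hpt
  exact hpt

lemma D_le {R1 R2 x y P : ι} (h1 : S.Per R1) (h2 : S.Per R2) (hne : R1 ≠ R2)
    (hx : x ∈ S.L R2) (hy : y ∈ S.Y R1) (hP : P ∈ S.L R1) :
    S.D y P * S.D x R2 ≤ 1 + S.D x P := by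
  have hpt := S.ptolemy y P x R2
  have hxy : S.D y x = 1 := S.cross h2 h1 hne.symm hy hx
  rw [hxy, one_mul, S.D_one_L h1 h2 hne.symm hP, S.D_one_Y h2 hne.symm hy, one_mul,
    S.D_comm P x] at hpt
  exact hpt

/-- two fixed points, both with strictly preperiodic points in their fibres -/
lemma Y_empty_fixed {R1 R2 : ι} (h1 : S.Per R1) (h2 : S.Per R2) (hne : R1 ≠ R2)
    (f1 : S.f R1 = R1) (hb : (S.L R2).Nonempty) (ha : 5 ≤ (S.L R1).card) : S.Y R1 = ∅ := by
  rw [Finset.eq_empty_iff_forall_notMem]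
  intro y hy
  obtain ⟨x, hx⟩ := hb
  obtain ⟨P, hP, hroot⟩ := S.root f1 hy
  have e1 := S.root_eq hP hroot
  have hxR2 : x ≠ R2 := by
    rintro rfl
    exact (S.mem_L.1 hx).1 h2
  have hxL : x ∉ S.L R1 := by
    intro h
    exact hne ((S.e_of_L h1 h).symm.trans (S.e_of_L h2 hx))
  have a1 := S.m_le h1 h2 hne hx hy
  have a2 := S.D_le h1 h2 hne hx hy hP
  have a3 := Nat.le_of_dvd (S.D_pos hne) (S.prod_L_dvd_m h1 h2 hne hx)
  rw [← Finset.mul_prod_erase _ _ hP] at a3
  have a4 := S.pow_le_prod h1 h2 hne hxR2 (T := (S.L R1).erase P) (Finset.erase_subset _ _)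
    (fun h => hxL (Finset.mem_of_mem_erase h)) (k := 2) (by
      rw [Finset.card_erase_of_mem hP]; omega)
  have hxP : 0 < S.D x P := S.D_pos (by rintro rfl; exact hxL hP)
  rw [e1] at a2
  set w := S.D y R1 * S.D x R2
  set p := ∏ z ∈ (S.L R1).erase P, S.D x z
  nlinarith

/-- a cycle of length two -/
lemma Y_empty_cycle {R1 R2 : ι} (h1 : S.Per R1) (h2 : S.Per R2) (hne : R1 ≠ R2)
    (f1 : S.f R1 = R2) (hY : S.Y R2 = ∅) (ha : 5 ≤ (S.L R1).card) :
    S.Y R1 = ∅ := by
  rw [Finset.eq_empty_iff_forall_notMem]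
  intro y hy
  have hy' := S.mem_Y.1 hy
  have hx : S.f y ∈ S.L R2 := by
    have h3 := S.non_cases hy'.2.1
    rw [e_f, hy'.2.2, f1, hY] at h3
    simpa using h3
  set x := S.f y with hxdef
  have hxR2 : x ≠ R2 := by
    intro h
    exact (S.mem_L.1 hx).1 (h ▸ h2)
  have hxL : x ∉ S.L R1 := by
    intro h
    exact hne ((S.e_of_L h1 h).symm.trans (S.e_of_L h2 hx))
  have hyR2 : y ≠ R2 := by
    rintro rfl
    exact hy'.1 h2
  have a1 := S.m_le h1 h2 hne hx hy
  have a2 : ∀ P ∈ S.L R1, S.D x R2 ≤ 1 + S.D x P := by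
    intro P hP
    refine le_trans ?_ (S.D_le h1 h2 hne hx hy hP)
    have : 0 < S.D y P := S.D_pos (by rintro rfl; exact S.Y_not_mem_L h1 hy hP)
    exact Nat.le_mul_of_pos_left _ this
  have a3 := Nat.le_of_dvd (S.D_pos hne) (S.prod_L_dvd_m h1 h2 hne hx)
  have hq : 0 < S.D x R2 := S.D_pos hxR2
  have a4 : S.D y R1 * ∏ z ∈ S.L R1, S.D y z ∣ S.D x R2 := by
    have h4 : S.f R1 ≠ S.f y := by
      rw [f1]; exact hxR2.symm
    have := S.prod_L_dvd h4 h1
    rwa [f1] at this
  have a5 := Nat.le_of_dvd hq a4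
  have a6 := S.pow_le_prod h1 h2 hne hyR2 (T := S.L R1) (Finset.Subset.refl _)
    (S.Y_not_mem_L h1 hy) (k := 3) ha
  have hyR1 : 0 < S.D y R1 := S.D_pos (by rintro rfl; exact hy'.1 h1)
  -- `q ≥ 8`, `D(y,R1) ≤ q`
  have b1 : 8 ≤ S.D x R2 := by
    refine le_trans ?_ a5
    calc 8 = 1 * 2 ^ 3 := by norm_num
      _ ≤ _ := Nat.mul_le_mul hyR1 a6
  have b2 : S.D y R1 ≤ S.D x R2 := by
    refine le_trans ?_ a5
    apply Nat.le_mul_of_pos_right
    exact lt_of_lt_of_le (by norm_num) a6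
  -- `(q-1)^5 ≤ m`
  have b3 : (S.D x R2 - 1) ^ (S.L R1).card ≤ ∏ z ∈ S.L R1, S.D x z := by
    apply Finset.pow_card_le_prod
    intro z hz
    have := a2 z hz
    omega
  have b4 : (S.D x R2 - 1) ^ 3 ≤ (S.D x R2 - 1) ^ (S.L R1).card :=
    Nat.pow_le_pow_right (by omega) (by omega)
  obtain ⟨t, ht⟩ : ∃ t, S.D x R2 = t + 1 := ⟨S.D x R2 - 1, by omega⟩
  rw [ht] at b1 b2 a1 b3 b4
  simp only [Nat.add_sub_cancel] at b3 b4
  have b5 : t ^ 3 ≤ 1 + (t + 1) * (t + 1) := by
    calc t ^ 3 ≤ _ := b4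
      _ ≤ _ := b3
      _ ≤ _ := a3
      _ ≤ _ := a1
      _ ≤ _ := by
        apply Nat.add_le_add_left
        exact Nat.mul_le_mul_right _ b2
  have b6 : 7 ≤ t := by omega
  nlinarith [Nat.mul_le_mul b6 (Nat.le_refl (t * t))]

end Sys

end Pool.Agent.TH856.GR
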